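import Mathlib

set_option autoImplicit false

/-!
Bergman space tools on the unit disc (power series, Parseval), copied from `Pool/Agent/S03025.lean`
(helper459).
-/

namespace Pool.Agent.H563Dom
open MeasureTheory Filter Topology Complex ComplexConjugate

/-- orthogonality of monomials -/
lemma integral_mono_ne {m n : ℕ} (h : m ≠ n) (ρ : ℝ) :
    ∫ z in Metric.ball (0 : ℂ) ρ, z ^ m * conj z ^ n = 0 := by
  have hmn : ((m : ℂ) - n) ≠ 0 := by
    rw [sub_ne_zero]; exact_mod_cast h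
  set a : ℝ := Real.pi / ((m : ℝ) - n) with ha
  set c : Circle := Circle.exp a with hc
  have hmp : MeasurePreserving (rotation c) (volume : Measure ℂ) volume :=
    (rotation c).measurePreserving
  have hpre : (rotation c) ⁻¹' (Metric.ball (0 : ℂ) ρ) = Metric.ball (0 : ℂ) ρ := by
    ext z; simp only [Set.mem_preimage, mem_ball_zero_iff, LinearIsometryEquiv.norm_map]
  have h1 := hmp.setIntegral_preimage_emb (rotation c).toHomeomorph.measurableEmbedding
    (fun z : ℂ => z ^ m * conj z ^ n) (Metric.ball (0 : ℂ) ρ)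
  rw [hpre] at h1
  have h2 : ∀ z : ℂ, (rotation c z) ^ m * conj (rotation c z) ^ n = (-1) * (z ^ m * conj z ^ n) := by
    intro z
    have hcc : (c : ℂ) ^ m * (conj (c : ℂ)) ^ n = -1 := by
      rw [hc, Circle.coe_exp, ← Complex.exp_conj, ← Complex.exp_nat_mul, ← Complex.exp_nat_mul,
        ← Complex.exp_add, ← Complex.exp_pi_mul_I]
      congr 1
      simp only [map_mul, conj_ofReal, conj_I, ha]
      push_cast
      field_simp
      ring
    rw [rotation_apply, map_mul, mul_pow, mul_pow]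
    calc (c : ℂ) ^ m * z ^ m * ((conj (c : ℂ)) ^ n * (conj z) ^ n)
        = ((c : ℂ) ^ m * (conj (c : ℂ)) ^ n) * (z ^ m * conj z ^ n) := by ring
      _ = _ := by rw [hcc]
  simp only [h2] at h1
  rw [integral_const_mul] at h1
  linear_combination (-1/2 : ℂ) * h1

lemma integral_mono_eq (n : ℕ) {ρ : ℝ} (hρ : 0 ≤ ρ) :
    ∫ z in Metric.ball (0 : ℂ) ρ, z ^ n * conj z ^ n
      = ((Real.pi * ρ ^ (2 * n + 2) / (n + 1) : ℝ) : ℂ) := by
  have h0 : ∀ z : ℂ, z ^ n * conj z ^ n = ((‖z‖ ^ (2 * n) : ℝ) : ℂ) := by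
    intro z
    rw [← mul_pow, Complex.mul_conj, Complex.normSq_eq_norm_sq, pow_mul]
    push_cast; ring
  simp only [h0]
  rw [integral_complex_ofReal]
  congr 1
  rw [← integral_indicator measurableSet_ball]
  have h1 : ∀ z : ℂ, (Metric.ball (0 : ℂ) ρ).indicator (fun z : ℂ => ‖z‖ ^ (2 * n)) z
      = (fun y : ℝ => (Set.Iio ρ).indicator (fun y : ℝ => y ^ (2 * n)) y) ‖z‖ := by
    intro z
    by_cases hz : ‖z‖ < ρ
    · simp [Set.indicator, hz]
    · simp [Set.indicator, hz]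
  simp only [h1]
  have := integral_fun_norm_addHaar (volume : Measure ℂ)
    (fun y : ℝ => (Set.Iio ρ).indicator (fun y : ℝ => y ^ (2 * n)) y)
  rw [this]
  have hdim : Module.finrank ℝ ℂ = 2 := Complex.finrank_real_complex
  have hvol : (volume : Measure ℂ).real (Metric.ball 0 1) = Real.pi := by
    rw [Measure.real, Complex.volume_ball]; simp
  rw [hdim, hvol]
  have h2 : ∫ y in Set.Ioi (0 : ℝ), y ^ (2 - 1) • (Set.Iio ρ).indicator (fun y : ℝ => y ^ (2 * n)) y
      = ρ ^ (2 * n + 2) / (2 * n + 2) := by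
    have h3 : ∀ y : ℝ, y ^ (2 - 1) • (Set.Iio ρ).indicator (fun y : ℝ => y ^ (2 * n)) y
        = (Set.Iio ρ).indicator (fun y : ℝ => y ^ (2 * n + 1)) y := by
      intro y
      by_cases hy : y < ρ
      · simp [Set.indicator, hy]; ring
      · simp [Set.indicator, hy]
    simp only [h3]
    rw [integral_indicator measurableSet_Iio, Measure.restrict_restrict measurableSet_Iio,
      Set.Iio_inter_Ioi, ← integral_Ioc_eq_integral_Ioo, ← intervalIntegral.integral_of_le hρ,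
      integral_pow]
    push_cast
    simp
    ring
  rw [h2]
  simp only [smul_eq_mul, nsmul_eq_mul]
  field_simp
  ring


/-- `f` is the sum of the power series with coefficients `a` on the unit disc. -/
def IsPS (a : ℕ → ℂ) (f : ℂ → ℂ) : Prop :=
  ∀ z ∈ Metric.ball (0 : ℂ) 1, HasSum (fun n => a n * z ^ n) (f z)

lemma IsPS.summable_norm {a : ℕ → ℂ} {f : ℂ → ℂ} (h : IsPS a f) {ρ : ℝ} (h0 : 0 ≤ ρ)
    (h1 : ρ < 1) : Summable (fun n => ‖a n‖ * ρ ^ n) := by
  have hm : ((ρ : ℝ) : ℂ) ∈ Metric.ball (0 : ℂ) 1 := by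
    simp [abs_of_nonneg h0, h1]
  have := (h _ hm).summable.norm
  refine this.congr fun n => ?_
  simp [abs_of_nonneg h0]

lemma isPS_tsum {a : ℕ → ℂ} (h : ∀ ρ : ℝ, 0 ≤ ρ → ρ < 1 → Summable (fun n => ‖a n‖ * ρ ^ n)) :
    IsPS a (fun z => ∑' n, a n * z ^ n) := by
  intro z hz
  have hz' : ‖z‖ < 1 := by simpa using hz
  refine Summable.hasSum ?_
  refine Summable.of_norm ?_
  simpa [norm_mul, norm_pow] using h ‖z‖ (norm_nonneg z) hz'

lemma IsPS.differentiableOn {a : ℕ → ℂ} {f : ℂ → ℂ} (h : IsPS a f) :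
    DifferentiableOn ℂ f (Metric.ball (0 : ℂ) 1) := by
  intro z hz
  have hz' : ‖z‖ < 1 := by simpa using hz
  obtain ⟨ρ, hρ1, hρ2⟩ := exists_between hz'
  have hρ0 : 0 ≤ ρ := (norm_nonneg z).trans hρ1.le
  have hd : DifferentiableOn ℂ (fun w => ∑' n, a n * w ^ n) (Metric.ball (0 : ℂ) ρ) := by
    refine Complex.differentiableOn_tsum_of_summable_norm (h.summable_norm hρ0 hρ2)
      (fun n => by fun_prop) Metric.isOpen_ball ?_
    intro n w hw
    have hw' : ‖w‖ < ρ := by simpa using hw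
    rw [norm_mul, norm_pow]
    gcongr
  have hz2 : z ∈ Metric.ball (0 : ℂ) ρ := by simpa using hρ1
  have hd2 := (hd z hz2).differentiableAt (Metric.isOpen_ball.mem_nhds hz2)
  refine (hd2.congr_of_eventuallyEq ?_).differentiableWithinAt
  filter_upwards [Metric.isOpen_ball.mem_nhds hz] with w hw
  exact (h w hw).tsum_eq.symm

lemma exists_isPS {f : ℂ → ℂ} (hf : DifferentiableOn ℂ f (Metric.ball (0 : ℂ) 1)) :
    ∃ a : ℕ → ℂ, IsPS a f := by
  refine ⟨fun n => ((n.factorial : ℂ))⁻¹ * iteratedDeriv n f 0, ?_⟩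
  intro z hz
  have := Complex.hasSum_taylorSeries_on_ball hf hz
  have h2 : (fun n : ℕ => ((n.factorial : ℂ))⁻¹ • (z - 0) ^ n • iteratedDeriv n f 0)
      = fun n : ℕ => ((n.factorial : ℂ))⁻¹ * iteratedDeriv n f 0 * z ^ n := by
    funext n
    simp only [smul_eq_mul, sub_zero]
    ring
  rw [h2] at this
  exact this

lemma IsPS.aesm {a : ℕ → ℂ} {f : ℂ → ℂ} (h : IsPS a f) :
    AEStronglyMeasurable f (volume.restrict (Metric.ball (0 : ℂ) 1)) :=
  h.differentiableOn.continuousOn.aestronglyMeasurable measurableSet_ball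

lemma ball_sub {ρ : ℝ} (h1 : ρ < 1) : Metric.ball (0 : ℂ) ρ ⊆ Metric.ball (0 : ℂ) 1 :=
  Metric.ball_subset_ball h1.le

lemma IsPS.aesm' {a : ℕ → ℂ} {f : ℂ → ℂ} (h : IsPS a f) {ρ : ℝ} (h1 : ρ < 1) :
    AEStronglyMeasurable f (volume.restrict (Metric.ball (0 : ℂ) ρ)) :=
  (h.differentiableOn.continuousOn.mono (ball_sub h1)).aestronglyMeasurable measurableSet_ball

lemma IsPS.norm_le {a : ℕ → ℂ} {f : ℂ → ℂ} (h : IsPS a f) {ρ : ℝ} (h0 : 0 ≤ ρ)
    (h1 : ρ < 1) {z : ℂ} (hz : z ∈ Metric.ball (0 : ℂ) ρ) : ‖f z‖ ≤ ∑' n, ‖a n‖ * ρ ^ n := by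
  have hz' : ‖z‖ < ρ := by simpa using hz
  rw [← (h z (ball_sub h1 hz)).tsum_eq]
  refine tsum_of_norm_bounded (h.summable_norm h0 h1).hasSum ?_
  intro n
  rw [norm_mul, norm_pow]
  gcongr

instance finBall (ρ : ℝ) : IsFiniteMeasure (volume.restrict (Metric.ball (0 : ℂ) ρ)) :=
  ⟨by rw [Measure.restrict_apply_univ]; exact measure_ball_lt_top⟩

lemma IsPS.pair_mono {b : ℕ → ℂ} {g : ℂ → ℂ} (h : IsPS b g) {ρ : ℝ} (h0 : 0 ≤ ρ)
    (h1 : ρ < 1) (n : ℕ) :
    ∫ z in Metric.ball (0 : ℂ) ρ, z ^ n * conj (g z)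
      = conj (b n) * ((Real.pi * ρ ^ (2 * n + 2) / (n + 1) : ℝ) : ℂ) := by
  have key : HasSum (fun m => ∫ z in Metric.ball (0 : ℂ) ρ, z ^ n * conj (b m * z ^ m))
      (∫ z in Metric.ball (0 : ℂ) ρ, z ^ n * conj (g z)) := by
    refine hasSum_integral_of_dominated_convergence (fun m _ => ‖b m‖ * ρ ^ m) ?_ ?_ ?_ ?_ ?_
    · intro m
      exact Continuous.aestronglyMeasurable (by fun_prop)
    · intro m
      filter_upwards [ae_restrict_mem measurableSet_ball] with z hz
      have hz' : ‖z‖ < ρ := by simpa using hz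
      have hz1 : ‖z‖ ≤ 1 := (hz'.trans h1).le
      rw [norm_mul, norm_pow, RCLike.norm_conj, norm_mul, norm_pow]
      calc ‖z‖ ^ n * (‖b m‖ * ‖z‖ ^ m) ≤ 1 * (‖b m‖ * ρ ^ m) := by
            gcongr
            exact pow_le_one₀ (norm_nonneg z) hz1
        _ = _ := one_mul _
    · exact ae_of_all _ fun _ => h.summable_norm h0 h1
    · exact integrable_const _
    · filter_upwards [ae_restrict_mem measurableSet_ball] with z hz
      have := (h z (ball_sub h1 hz))
      exact (Complex.hasSum_conj'.2 this).mul_left (z ^ n)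
  have h2 : ∀ m, m ≠ n → ∫ z in Metric.ball (0 : ℂ) ρ, z ^ n * conj (b m * z ^ m) = 0 := by
    intro m hm
    have : ∀ z : ℂ, z ^ n * conj (b m * z ^ m) = conj (b m) * (z ^ n * conj z ^ m) := by
      intro z; simp only [map_mul, map_pow]; ring
    simp only [this]
    rw [integral_const_mul, integral_mono_ne hm.symm, mul_zero]
  have h3 := (hasSum_single n h2).unique key
  rw [← h3]
  have : ∀ z : ℂ, z ^ n * conj (b n * z ^ n) = conj (b n) * (z ^ n * conj z ^ n) := by
    intro z; simp only [map_mul, map_pow]; ring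
  simp only [this]
  rw [integral_const_mul, integral_mono_eq n h0]

lemma IsPS.unique {a b : ℕ → ℂ} {f : ℂ → ℂ} (ha : IsPS a f) (hb : IsPS b f) : a = b := by
  funext n
  have h1 := ha.pair_mono (ρ := 1/2) (by norm_num) (by norm_num) n
  have h2 := hb.pair_mono (ρ := 1/2) (by norm_num) (by norm_num) n
  rw [h1] at h2
  have hne : ((Real.pi * (1/2 : ℝ) ^ (2 * n + 2) / (n + 1) : ℝ) : ℂ) ≠ 0 := by
    have : (0 : ℝ) < Real.pi * (1/2 : ℝ) ^ (2 * n + 2) / (n + 1) := by
      have := Real.pi_pos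
      positivity
    exact_mod_cast this.ne'
  have h3 := mul_right_cancel₀ hne h2
  exact (starRingEnd ℂ).injective h3

lemma IsPS.pair {a b : ℕ → ℂ} {f g : ℂ → ℂ} (ha : IsPS a f) (hb : IsPS b g) {ρ : ℝ}
    (h0 : 0 ≤ ρ) (h1 : ρ < 1) :
    HasSum (fun n => a n * conj (b n) * ((Real.pi * ρ ^ (2 * n + 2) / (n + 1) : ℝ) : ℂ))
      (∫ z in Metric.ball (0 : ℂ) ρ, f z * conj (g z)) := by
  set C : ℝ := ∑' n, ‖b n‖ * ρ ^ n with hC
  have key : HasSum (fun m => ∫ z in Metric.ball (0 : ℂ) ρ, (a m * z ^ m) * conj (g z))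
      (∫ z in Metric.ball (0 : ℂ) ρ, f z * conj (g z)) := by
    refine hasSum_integral_of_dominated_convergence (fun m _ => (‖a m‖ * ρ ^ m) * C) ?_ ?_ ?_ ?_ ?_
    · intro m
      exact (Continuous.aestronglyMeasurable (by fun_prop)).mul
        (continuous_conj.comp_aestronglyMeasurable (hb.aesm' h1))
    · intro m
      filter_upwards [ae_restrict_mem measurableSet_ball] with z hz
      have hz' : ‖z‖ < ρ := by simpa using hz
      have := hb.norm_le h0 h1 hz
      rw [norm_mul, RCLike.norm_conj, norm_mul, norm_pow]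
      gcongr
    · exact ae_of_all _ fun _ => (ha.summable_norm h0 h1).mul_right C
    · exact integrable_const _
    · filter_upwards [ae_restrict_mem measurableSet_ball] with z hz
      exact (ha z (ball_sub h1 hz)).mul_right _
  have h2 : (fun m => ∫ z in Metric.ball (0 : ℂ) ρ, (a m * z ^ m) * conj (g z))
      = fun n => a n * conj (b n) * ((Real.pi * ρ ^ (2 * n + 2) / (n + 1) : ℝ) : ℂ) := by
    funext m
    have : ∀ z : ℂ, (a m * z ^ m) * conj (g z) = a m * (z ^ m * conj (g z)) := by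
      intro z; ring
    simp only [this]
    rw [integral_const_mul, hb.pair_mono h0 h1]
    ring
  rw [h2] at key
  exact key

/-- exhausting radii -/
noncomputable def rad (k : ℕ) : ℝ := 1 - 1 / ((k : ℝ) + 1)

lemma rad_nonneg (k : ℕ) : 0 ≤ rad k := by
  unfold rad
  have : (1 : ℝ) / ((k : ℝ) + 1) ≤ 1 := by
    rw [div_le_one (by positivity)]; linarith [(Nat.cast_nonneg k : (0 : ℝ) ≤ k)]
  linarith

lemma rad_lt (k : ℕ) : rad k < 1 := by
  unfold rad
  have : (0 : ℝ) < 1 / ((k : ℝ) + 1) := by positivity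
  linarith

lemma rad_tendsto : Tendsto rad atTop (𝓝 1) := by
  unfold rad
  simpa using (tendsto_const_nhds (x := (1 : ℝ))).sub
    (tendsto_one_div_add_atTop_nhds_zero_nat (𝕜 := ℝ))

lemma cover : AECover (volume.restrict (Metric.ball (0 : ℂ) 1)) atTop
    (fun k => Metric.ball (0 : ℂ) (rad k)) where
  measurableSet _ := measurableSet_ball
  ae_eventually_mem := by
    filter_upwards [ae_restrict_mem measurableSet_ball] with z hz
    have hz' : ‖z‖ < 1 := by simpa using hz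
    filter_upwards [rad_tendsto.eventually (lt_mem_nhds hz')] with k hk
    simpa using hk

lemma restrict_rad (k : ℕ) : (volume.restrict (Metric.ball (0 : ℂ) 1)).restrict
    (Metric.ball (0 : ℂ) (rad k)) = volume.restrict (Metric.ball (0 : ℂ) (rad k)) := by
  rw [Measure.restrict_restrict measurableSet_ball,
    Set.inter_eq_left.2 (ball_sub (rad_lt k))]

lemma IsPS.integrableOn_rad {a : ℕ → ℂ} {f : ℂ → ℂ} (ha : IsPS a f) (k : ℕ) :
    IntegrableOn (fun z => ‖f z‖ ^ 2) (Metric.ball (0 : ℂ) (rad k)) := by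
  refine Integrable.of_bound ((ha.aesm' (rad_lt k)).norm.pow 2)
    ((∑' n, ‖a n‖ * rad k ^ n) ^ 2) ?_
  filter_upwards [ae_restrict_mem measurableSet_ball] with z hz
  rw [Real.norm_of_nonneg (by positivity)]
  gcongr
  exact ha.norm_le (rad_nonneg k) (rad_lt k) hz

lemma mul_conj_self (w : ℂ) : w * conj w = ((‖w‖ ^ 2 : ℝ) : ℂ) := by
  rw [Complex.mul_conj, Complex.normSq_eq_norm_sq]

lemma IsPS.sq_rad {a : ℕ → ℂ} {f : ℂ → ℂ} (ha : IsPS a f) (k : ℕ) :
    HasSum (fun n => ‖a n‖ ^ 2 * (Real.pi * rad k ^ (2 * n + 2) / (n + 1)))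
      (∫ z in Metric.ball (0 : ℂ) (rad k), ‖f z‖ ^ 2) := by
  have h := ha.pair ha (rad_nonneg k) (rad_lt k)
  simp only [mul_conj_self] at h
  rw [integral_complex_ofReal] at h
  have h2 : (fun n => ((‖a n‖ ^ 2 : ℝ) : ℂ) * ((Real.pi * rad k ^ (2 * n + 2) / (n + 1) : ℝ) : ℂ))
      = fun n => ((‖a n‖ ^ 2 * (Real.pi * rad k ^ (2 * n + 2) / (n + 1)) : ℝ) : ℂ) := by
    funext n; push_cast; ring
  rw [h2] at h
  exact_mod_cast h

/-- finite Bergman norm implies summability of the weighted coefficients -/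
lemma IsPS.summable_of_integrable {a : ℕ → ℂ} {f : ℂ → ℂ} (ha : IsPS a f)
    (hf : IntegrableOn (fun z => ‖f z‖ ^ 2) (Metric.ball (0 : ℂ) 1)) :
    Summable (fun n => ‖a n‖ ^ 2 / (n + 1)) := by
  have hb : ∀ u : Finset ℕ, ∑ n ∈ u, ‖a n‖ ^ 2 * (Real.pi / (n + 1))
      ≤ ∫ z in Metric.ball (0 : ℂ) 1, ‖f z‖ ^ 2 := by
    intro u
    have hlim : Tendsto (fun k => ∑ n ∈ u, ‖a n‖ ^ 2 * (Real.pi * rad k ^ (2 * n + 2) / (n + 1)))
        atTop (𝓝 (∑ n ∈ u, ‖a n‖ ^ 2 * (Real.pi * 1 ^ (2 * n + 2) / (n + 1)))) := by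
      refine tendsto_finsetSum _ fun n _ => ?_
      exact (((rad_tendsto.pow _).const_mul _).div_const _).const_mul _
    have hle : ∀ k, ∑ n ∈ u, ‖a n‖ ^ 2 * (Real.pi * rad k ^ (2 * n + 2) / (n + 1))
        ≤ ∫ z in Metric.ball (0 : ℂ) 1, ‖f z‖ ^ 2 := by
      intro k
      have h1 := (ha.sq_rad k)
      refine (sum_le_hasSum u (fun n _ => ?_) h1).trans ?_
      · have := Real.pi_pos
        have := rad_nonneg k
        positivity
      · exact setIntegral_mono_set hf (ae_of_all _ fun _ => by positivity)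
          (ball_sub (rad_lt k)).eventuallyLE
    have := le_of_tendsto' hlim hle
    simpa using this
  have hs : Summable (fun n => ‖a n‖ ^ 2 * (Real.pi / (n + 1))) :=
    summable_of_sum_le (fun n => by have := Real.pi_pos; positivity) hb
  refine (hs.mul_left (Real.pi⁻¹)).congr fun n => ?_
  have := Real.pi_pos
  field_simp

lemma IsPS.integrable_of_summable {a : ℕ → ℂ} {f : ℂ → ℂ} (ha : IsPS a f)
    (hs : Summable (fun n => ‖a n‖ ^ 2 / (n + 1))) :
    IntegrableOn (fun z => ‖f z‖ ^ 2) (Metric.ball (0 : ℂ) 1) := by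
  refine cover.integrable_of_integral_bounded_of_nonneg_ae
    (Real.pi * ∑' n, ‖a n‖ ^ 2 / ((n : ℝ) + 1)) (fun k => ?_)
    (ae_of_all _ fun _ => by positivity) (Eventually.of_forall fun k => ?_)
  · rw [IntegrableOn, restrict_rad]
    exact ha.integrableOn_rad k
  · rw [restrict_rad, ← (ha.sq_rad k).tsum_eq, ← tsum_mul_left]
    refine (ha.sq_rad k).summable.tsum_le_tsum (fun n => ?_) (hs.mul_left _)
    have := Real.pi_pos
    have h1 : rad k ^ (2 * n + 2) ≤ 1 := pow_le_one₀ (rad_nonneg k) (rad_lt k).le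
    calc ‖a n‖ ^ 2 * (Real.pi * rad k ^ (2 * n + 2) / (n + 1))
        ≤ ‖a n‖ ^ 2 * (Real.pi * 1 / (n + 1)) := by gcongr
      _ = Real.pi * (‖a n‖ ^ 2 / (n + 1)) := by ring

lemma memLp_of {f : ℂ → ℂ} (hm : AEStronglyMeasurable f (volume.restrict (Metric.ball (0 : ℂ) 1)))
    (hf : IntegrableOn (fun z => ‖f z‖ ^ 2) (Metric.ball (0 : ℂ) 1)) :
    MemLp f 2 (volume.restrict (Metric.ball (0 : ℂ) 1)) :=
  (memLp_two_iff_integrable_sq_norm hm).2 hf

lemma summable_mul {a b : ℕ → ℂ} (ha : Summable (fun n => ‖a n‖ ^ 2 / ((n : ℝ) + 1)))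
    (hb : Summable (fun n => ‖b n‖ ^ 2 / ((n : ℝ) + 1))) :
    Summable (fun n => ‖a n‖ * ‖b n‖ / ((n : ℝ) + 1)) := by
  refine Summable.of_nonneg_of_le (fun n => by positivity) (fun n => ?_) (ha.add hb)
  rw [← add_div]
  gcongr
  nlinarith [sq_nonneg (‖a n‖ - ‖b n‖), sq_nonneg (‖a n‖), sq_nonneg (‖b n‖)]

/-- Parseval identity for the Bergman space -/
lemma IsPS.parseval {a b : ℕ → ℂ} {f g : ℂ → ℂ} (ha : IsPS a f) (hb : IsPS b g)
    (hf : MemLp f 2 (volume.restrict (Metric.ball (0 : ℂ) 1)))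
    (hg : MemLp g 2 (volume.restrict (Metric.ball (0 : ℂ) 1))) :
    HasSum (fun n => a n * conj (b n) * ((Real.pi / (n + 1) : ℝ) : ℂ))
      (∫ z in Metric.ball (0 : ℂ) 1, f z * conj (g z)) := by
  have hsa := ha.summable_of_integrable ((memLp_two_iff_integrable_sq_norm ha.aesm).1 hf)
  have hsb := hb.summable_of_integrable ((memLp_two_iff_integrable_sq_norm hb.aesm).1 hg)
  have hbd := (summable_mul hsa hsb).mul_left Real.pi
  have hpi := Real.pi_pos
  have hsum : Summable (fun n => a n * conj (b n) * ((Real.pi / (n + 1) : ℝ) : ℂ)) := by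
    refine Summable.of_norm_bounded hbd fun n => ?_
    rw [norm_mul, norm_mul, RCLike.norm_conj, Complex.norm_real, Real.norm_of_nonneg (by positivity)]
    apply le_of_eq
    ring
  have hint : Integrable (fun z => f z * conj (g z)) (volume.restrict (Metric.ball (0 : ℂ) 1)) :=
    hf.integrable_mul hg.star
  have h1 := cover.integral_tendsto_of_countably_generated hint
  have h2 : Tendsto (fun k => ∑' n, a n * conj (b n) *
      ((Real.pi * rad k ^ (2 * n + 2) / (n + 1) : ℝ) : ℂ)) atTop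
      (𝓝 (∑' n, a n * conj (b n) * ((Real.pi / (n + 1) : ℝ) : ℂ))) := by
    refine tendsto_tsum_of_dominated_convergence hbd (fun n => ?_)
      (Eventually.of_forall fun k n => ?_)
    · refine Tendsto.const_mul _ ?_
      have : Tendsto (fun k => (Real.pi * rad k ^ (2 * n + 2) / (n + 1) : ℝ)) atTop
          (𝓝 (Real.pi * 1 ^ (2 * n + 2) / (n + 1))) :=
        ((rad_tendsto.pow _).const_mul _).div_const _
      have h3 := (Complex.continuous_ofReal.tendsto _).comp this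
      simpa [Function.comp_def] using h3
    · have h0 := rad_nonneg k
      rw [norm_mul, norm_mul, RCLike.norm_conj, Complex.norm_real,
        Real.norm_of_nonneg (by positivity)]
      have h1 : rad k ^ (2 * n + 2) ≤ 1 := pow_le_one₀ (rad_nonneg k) (rad_lt k).le
      calc ‖a n‖ * ‖b n‖ * (Real.pi * rad k ^ (2 * n + 2) / (n + 1))
          ≤ ‖a n‖ * ‖b n‖ * (Real.pi * 1 / (n + 1)) := by gcongr
        _ = Real.pi * (‖a n‖ * ‖b n‖ / (n + 1)) := by ring
  have h3 : (fun k => ∫ z in Metric.ball (0 : ℂ) (rad k), f z * conj (g z)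
      ∂(volume.restrict (Metric.ball (0 : ℂ) 1)))
      = fun k => ∑' n, a n * conj (b n) *
      ((Real.pi * rad k ^ (2 * n + 2) / (n + 1) : ℝ) : ℂ) := by
    funext k
    rw [restrict_rad, (ha.pair hb (rad_nonneg k) (rad_lt k)).tsum_eq]
  rw [h3] at h1
  have h4 := tendsto_nhds_unique h1 h2
  rw [h4]
  exact hsum.hasSum

lemma IsPS.parseval_norm {a : ℕ → ℂ} {f : ℂ → ℂ} (ha : IsPS a f)
    (hf : MemLp f 2 (volume.restrict (Metric.ball (0 : ℂ) 1))) :
    HasSum (fun n => ‖a n‖ ^ 2 * (Real.pi / (n + 1)))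
      (∫ z in Metric.ball (0 : ℂ) 1, ‖f z‖ ^ 2) := by
  have h := ha.parseval ha hf hf
  simp only [mul_conj_self] at h
  rw [integral_complex_ofReal] at h
  have h2 : (fun n : ℕ => ((‖a n‖ ^ 2 : ℝ) : ℂ) * ((Real.pi / (n + 1) : ℝ) : ℂ))
      = fun n : ℕ => ((‖a n‖ ^ 2 * (Real.pi / (n + 1)) : ℝ) : ℂ) := by
    funext n; push_cast; ring
  rw [h2] at h
  exact_mod_cast h

lemma shift {g : ℕ → ℂ} {G : ℂ → ℂ} (h : IsPS g G) (c : ℕ) :
    IsPS (fun n => if c ≤ n then g (n - c) else 0) (fun z => z ^ c * G z) := by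
  intro z hz
  rw [← (add_left_injective c).hasSum_iff (f := fun n => (if c ≤ n then g (n - c) else 0) * z ^ n)]
  · have := (h z hz).mul_left (z ^ c)
    refine this.congr_fun fun n => ?_
    simp only [Function.comp_apply, le_add_iff_nonneg_left, zero_le, if_true,
      Nat.add_sub_cancel, pow_add]
    ring
  · intro n hn
    have : ¬ c ≤ n := by
      intro hcn
      exact hn ⟨n - c, by simp [Nat.sub_add_cancel hcn]⟩
    simp [this]


end Pool.Agent.H563Dom
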