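import Mathlib

set_option autoImplicit false

/-! Definitions for the domination problem in the Bergman space of the unit disc. Functions on the
disc are represented by functions `ℂ → ℂ` of which only the values on the open unit disc matter. -/

namespace Pool.Agent.H563Dom

open MeasureTheory Filter Topology
open scoped ENNReal

/-- Normalized area measure on the open unit disc. -/
noncomputable def dA : Measure ℂ :=
  (ENNReal.ofReal Real.pi)⁻¹ • (volume : Measure ℂ).restrict (Metric.ball (0 : ℂ) 1)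

/-- The squared norm `‖f‖² = ∫ |f|² dA`, a number in `[0, ∞]`. -/
noncomputable def normSq (f : ℂ → ℂ) : ℝ≥0∞ := ∫⁻ z, ‖f z‖ₑ ^ 2 ∂dA

/-- `f` belongs to the Bergman space: it is holomorphic on the disc and `‖f‖ < ∞`. -/
def MemBergman (f : ℂ → ℂ) : Prop :=
  DifferentiableOn ℂ f (Metric.ball (0 : ℂ) 1) ∧ normSq f < ⊤

/-- `I` is a closed subspace of the Bergman space with `z I ⊆ I`. (The field `ext` says that
membership only depends on the values on the disc, `closed` that `I` is closed in norm.) -/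
structure IsInvSubspace (I : Set (ℂ → ℂ)) : Prop where
  bergman : ∀ f ∈ I, MemBergman f
  ext : ∀ f ∈ I, ∀ g : ℂ → ℂ, (∀ z ∈ Metric.ball (0 : ℂ) 1, g z = f z) → g ∈ I
  zero : (fun _ => 0) ∈ I
  add : ∀ f ∈ I, ∀ g ∈ I, (fun z => f z + g z) ∈ I
  smul : ∀ c : ℂ, ∀ f ∈ I, (fun z => c * f z) ∈ I
  closed : ∀ (F : ℕ → ℂ → ℂ) (f : ℂ → ℂ), (∀ n, F n ∈ I) → MemBergman f →
    Tendsto (fun n => normSq (fun z => F n z - f z)) atTop (𝓝 0) → f ∈ I
  z_mul : ∀ f ∈ I, (fun z => z * f z) ∈ I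

/-- `H` is the extremal function of `I`: the unique (as a function on the disc) maximizer of
`Re f(0)` over all `f ∈ I` with `‖f‖ ≤ 1`. -/
def IsExtremal (I : Set (ℂ → ℂ)) (H : ℂ → ℂ) : Prop :=
  H ∈ I ∧ normSq H ≤ 1 ∧ (∀ f ∈ I, normSq f ≤ 1 → (f 0).re ≤ (H 0).re) ∧
    ∀ f ∈ I, normSq f ≤ 1 → (H 0).re ≤ (f 0).re → ∀ z ∈ Metric.ball (0 : ℂ) 1, f z = H z

end Pool.Agent.H563Dom
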