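import Mathlib

set_option autoImplicit false

namespace Pool.Agent.H563Dom

open ComplexConjugate

variable {E : Type*} [NormedAddCommGroup E] [InnerProductSpace ℂ E]

/-- In an invariant subspace of index at least two: extremal vector and a further wandering vector. -/
theorem hilb (J : Submodule ℂ E) [J.HasOrthogonalProjection] (T : E → E) (e q x1 x2 : E)
    (hx1 : x1 ∈ J) (hx2 : x2 ∈ J) (he1 : inner ℂ e x1 ≠ 0) (he2 : inner ℂ e x2 = 0)
    (hq2 : inner ℂ q x2 ≠ 0) (hTJ : ∀ α ∈ J, T α ∈ J) (heT : ∀ α ∈ J, inner ℂ e (T α) = 0)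
    (hqT : ∀ α ∈ J, inner ℂ q (T α) = 0) :
    ∃ H ∈ J, ∃ K ∈ J, ‖H‖ = 1 ∧ ‖K‖ = 1 ∧ inner ℂ H K = 0 ∧
      (∃ p : ℝ, 0 < p ∧ ∀ α ∈ J, inner ℂ e α = (p : ℂ) * inner ℂ H α) ∧
      (∀ α ∈ J, inner ℂ H (T α) = 0) ∧ (∀ α ∈ J, inner ℂ K (T α) = 0) := by
  set P : E := J.starProjection e with hP
  set Q : E := J.starProjection q with hQ
  have hPJ : P ∈ J := J.starProjection_apply_mem e
  have hQJ : Q ∈ J := J.starProjection_apply_mem q
  have hPe : ∀ α ∈ J, inner ℂ P α = inner ℂ e α := by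
    intro α hα
    have h1 := J.starProjection_inner_eq_zero e α hα
    rw [inner_sub_left, sub_eq_zero] at h1
    exact h1.symm
  have hQq : ∀ α ∈ J, inner ℂ Q α = inner ℂ q α := by
    intro α hα
    have h1 := J.starProjection_inner_eq_zero q α hα
    rw [inner_sub_left, sub_eq_zero] at h1
    exact h1.symm
  have hP0 : P ≠ 0 := by
    intro h
    apply he1
    rw [← hPe x1 hx1, h, inner_zero_left]
  have hp : 0 < ‖P‖ := norm_pos_iff.2 hP0
  set H : E := ((‖P‖ : ℂ))⁻¹ • P with hH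
  have hHJ : H ∈ J := J.smul_mem _ hPJ
  have hpc : (‖P‖ : ℂ) ≠ 0 := by exact_mod_cast hp.ne'
  have hHn : ‖H‖ = 1 := by
    rw [hH, norm_smul, norm_inv, Complex.norm_real, norm_norm]
    exact inv_mul_cancel₀ hp.ne'
  have hHe : ∀ α ∈ J, inner ℂ e α = (‖P‖ : ℂ) * inner ℂ H α := by
    intro α hα
    rw [hH, inner_smul_left, hPe α hα, map_inv₀, Complex.conj_ofReal, ← mul_assoc,
      mul_inv_cancel₀ hpc, one_mul]
  have hHH : inner ℂ H H = (1 : ℂ) := by
    rw [inner_self_eq_norm_sq_to_K, hHn]; simp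
  have hHT : ∀ α ∈ J, inner ℂ H (T α) = 0 := by
    intro α hα
    have h1 := hHe (T α) (hTJ α hα)
    rw [heT α hα] at h1
    exact (mul_eq_zero.1 h1.symm).resolve_left hpc
  set K' : E := Q - (inner ℂ H Q) • H with hK'
  have hK'J : K' ∈ J := J.sub_mem hQJ (J.smul_mem _ hHJ)
  have hHx2 : inner ℂ H x2 = 0 := by
    have h1 := hHe x2 hx2
    rw [he2] at h1
    exact (mul_eq_zero.1 h1.symm).resolve_left hpc
  have hK'x2 : inner ℂ K' x2 ≠ 0 := by
    rw [hK', inner_sub_left, inner_smul_left, hHx2, mul_zero, sub_zero, hQq x2 hx2]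
    exact hq2
  have hK'0 : K' ≠ 0 := by
    intro h
    apply hK'x2
    rw [h, inner_zero_left]
  have hk : 0 < ‖K'‖ := norm_pos_iff.2 hK'0
  have hHK' : inner ℂ H K' = 0 := by
    rw [hK', inner_sub_right, inner_smul_right, hHH, mul_one, sub_self]
  refine ⟨H, hHJ, ((‖K'‖ : ℂ))⁻¹ • K', J.smul_mem _ hK'J, hHn, ?_, ?_, ⟨‖P‖, hp, hHe⟩, hHT, ?_⟩
  · rw [norm_smul, norm_inv, Complex.norm_real, norm_norm]
    exact inv_mul_cancel₀ hk.ne'
  · rw [inner_smul_right, hHK', mul_zero]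
  · intro α hα
    have h1 : inner ℂ K' (T α) = 0 := by
      rw [hK', inner_sub_left, inner_smul_left H (T α) (inner ℂ H Q), hHT α hα,
        hQq _ (hTJ α hα), hqT α hα]
      simp
    rw [inner_smul_left K' (T α) _, h1, mul_zero]

end Pool.Agent.H563Dom
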