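import Pool.Agent.Helper563.Dom.Seq

set_option autoImplicit false

namespace Pool.Agent.H563Dom

open Finset Filter Topology

/-- the initial state -/
noncomputable def s0 : St where
  N := 2
  x := fun i m => if m = (i : ℕ) then 1 else 0
  y := fun m => if m = 1 then 1 else 0
  hx := by
    intro i m hm
    rw [if_neg]
    have := i.isLt
    omega
  hy := by
    intro m hm
    rw [if_neg (by omega)]

/-- the sequence of states -/
noncomputable def sq : ℕ → {s : St // 1 ≤ s.N}
  | 0 => ⟨s0, by change 1 ≤ 2; norm_num⟩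
  | t + 1 => ⟨(exists_step (sq t).1 (sq t).2 (show (0 : ℝ) < (1 / 2) ^ t by positivity)).choose, by
      have h := (exists_step (sq t).1 (sq t).2
        (show (0 : ℝ) < (1 / 2) ^ t by positivity)).choose_spec
      exact (sq t).2.trans h.1.le⟩

lemma sq_step (t : ℕ) : Step ((1 / 2) ^ t) (sq t).1 (sq (t + 1)).1 :=
  (exists_step (sq t).1 (sq t).2 (show (0 : ℝ) < (1 / 2) ^ t by positivity)).choose_spec

lemma N_ge (t : ℕ) : t + 2 ≤ (sq t).1.N := by
  induction t with
  | zero => exact le_rfl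
  | succ t ih =>
    have := (sq_step t).1
    omega

lemma stable (t t' : ℕ) (h : t ≤ t') : (sq t).1.N ≤ (sq t').1.N ∧
    (∀ i m, m < (sq t).1.N → (sq t').1.x i m = (sq t).1.x i m) ∧
    (∀ m, m < (sq t).1.N → (sq t').1.y m = (sq t).1.y m) := by
  induction t', h using Nat.le_induction with
  | base => exact ⟨le_rfl, fun _ _ _ => rfl, fun _ _ => rfl⟩
  | succ t' h ih =>
    obtain ⟨h1, h2, h3⟩ := ih
    obtain ⟨g1, g2, g3, _⟩ := sq_step t'
    refine ⟨h1.trans g1.le, ?_, ?_⟩
    · intro i m hm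
      rw [g2 i m (by omega), h2 i m hm]
    · intro m hm
      rw [g3 m (by omega), h3 m hm]

/-- the errors cancelled -/
noncomputable def cc (t : ℕ) : ℝ := (sq_step t).2.2.2.choose

lemma cc_spec (t : ℕ) : 0 ≤ cc t ∧ (∀ i k, |err (sq t).1 i k| ≤ cc t) ∧
    tot (sq (t + 1)).1 ≤ tot (sq t).1 - cc t + (1 / 2) ^ t ∧
    (∀ i, ∑ m ∈ range (sq (t + 1)).1.N, (sq (t + 1)).1.x i m ^ 2 ≤
      ∑ m ∈ range (sq t).1.N, (sq t).1.x i m ^ 2 + cc t) ∧
    ∑ m ∈ range (sq (t + 1)).1.N, (sq (t + 1)).1.y m ^ 2 ≤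
      ∑ m ∈ range (sq t).1.N, (sq t).1.y m ^ 2 + 2 * cc t :=
  (sq_step t).2.2.2.choose_spec

lemma tot_nonneg (s : St) : 0 ≤ tot s := sum_nonneg fun _ _ => sum_nonneg fun _ _ => abs_nonneg _

lemma sum_cc (T : ℕ) : ∑ t ∈ range T, cc t ≤ tot s0 + 2 := by
  have h1 : ∑ t ∈ range T, cc t + tot (sq T).1 ≤ tot s0 + ∑ t ∈ range T, (1 / 2 : ℝ) ^ t := by
    induction T with
    | zero => simp [sq]
    | succ T ih =>
      rw [sum_range_succ, sum_range_succ]
      have := (cc_spec T).2.2.1
      linarith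
  have h2 : ∑ t ∈ range T, (1 / 2 : ℝ) ^ t ≤ 2 := by
    have h3 := summable_geometric_two.sum_le_tsum (range T) (fun i _ => by positivity)
    rw [tsum_geometric_two] at h3
    exact h3
  have := tot_nonneg (sq T).1
  linarith

lemma summable_cc : Summable cc :=
  summable_of_sum_range_le (fun t => (cc_spec t).1) sum_cc

lemma sq_x (t : ℕ) (i : Fin 2) : ∑ m ∈ range (sq t).1.N, (sq t).1.x i m ^ 2 ≤
    ∑ m ∈ range s0.N, s0.x i m ^ 2 + ∑ s ∈ range t, cc s := by
  induction t with
  | zero => simp [sq]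
  | succ t ih =>
    rw [sum_range_succ]
    have := (cc_spec t).2.2.2.1 i
    linarith

lemma sq_y (t : ℕ) : ∑ m ∈ range (sq t).1.N, (sq t).1.y m ^ 2 ≤
    ∑ m ∈ range s0.N, s0.y m ^ 2 + 2 * ∑ s ∈ range t, cc s := by
  induction t with
  | zero => simp [sq]
  | succ t ih =>
    rw [sum_range_succ]
    have := (cc_spec t).2.2.2.2
    linarith

/-- the limits -/
noncomputable def X (i : Fin 2) (m : ℕ) : ℝ := (sq m).1.x i m

noncomputable def Y (m : ℕ) : ℝ := (sq m).1.y m

lemma X_eq (t m : ℕ) (h : m < (sq t).1.N) (i : Fin 2) : X i m = (sq t).1.x i m := by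
  rcases le_total t m with h1 | h1
  · exact (stable t m h1).2.1 i m h
  · exact ((stable m t h1).2.1 i m (by have := N_ge m; omega)).symm

lemma Y_eq (t m : ℕ) (h : m < (sq t).1.N) : Y m = (sq t).1.y m := by
  rcases le_total t m with h1 | h1
  · exact (stable t m h1).2.2 m h
  · exact ((stable m t h1).2.2 m (by have := N_ge m; omega)).symm

lemma summable_X (i : Fin 2) : Summable fun m => X i m ^ 2 := by
  apply summable_of_sum_range_le (c := ∑ m ∈ range s0.N, s0.x i m ^ 2 + (tot s0 + 2))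
    (fun m => sq_nonneg _)
  intro M
  calc ∑ m ∈ range M, X i m ^ 2 ≤ ∑ m ∈ range (sq M).1.N, X i m ^ 2 := by
        apply sum_le_sum_of_subset_of_nonneg
        · intro m hm
          rw [mem_range] at hm ⊢
          have := N_ge M
          omega
        · intro m _ _
          exact sq_nonneg _
    _ = ∑ m ∈ range (sq M).1.N, (sq M).1.x i m ^ 2 := by
        apply sum_congr rfl
        intro m hm
        rw [mem_range] at hm
        rw [X_eq M m hm]
    _ ≤ _ := by
        have h1 := sq_x M i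
        have h2 := sum_cc M
        linarith

lemma summable_Y : Summable fun m => Y m ^ 2 := by
  apply summable_of_sum_range_le (c := ∑ m ∈ range s0.N, s0.y m ^ 2 + 2 * (tot s0 + 2))
    (fun m => sq_nonneg _)
  intro M
  calc ∑ m ∈ range M, Y m ^ 2 ≤ ∑ m ∈ range (sq M).1.N, Y m ^ 2 := by
        apply sum_le_sum_of_subset_of_nonneg
        · intro m hm
          rw [mem_range] at hm ⊢
          have := N_ge M
          omega
        · intro m _ _
          exact sq_nonneg _
    _ = ∑ m ∈ range (sq M).1.N, (sq M).1.y m ^ 2 := by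
        apply sum_congr rfl
        intro m hm
        rw [mem_range] at hm
        rw [Y_eq M m hm]
    _ ≤ _ := by
        have h1 := sq_y M
        have h2 := sum_cc M
        linarith

lemma summable_XY (i : Fin 2) (k : ℕ) : Summable fun m => X i m * Y (m + k) * w m k := by
  have h2 : Summable fun m => Y (m + k) ^ 2 := (summable_nat_add_iff k).2 summable_Y
  refine Summable.of_norm_bounded (g := fun m => X i m ^ 2 + Y (m + k) ^ 2)
    ((summable_X i).add h2) ?_
  intro m
  rw [Real.norm_eq_abs, abs_mul, abs_mul, abs_of_pos (w_pos m k)]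
  have h3 := w_le_one m k
  have h4 : |X i m| * |Y (m + k)| * w m k ≤ |X i m| * |Y (m + k)| * 1 :=
    mul_le_mul_of_nonneg_left h3 (by positivity)
  have h5 : |X i m| * |Y (m + k)| ≤ X i m ^ 2 + Y (m + k) ^ 2 := by
    rw [← sq_abs (X i m), ← sq_abs (Y (m + k))]
    nlinarith [sq_nonneg (|X i m| - |Y (m + k)|), sq_nonneg |X i m|, sq_nonneg |Y (m + k)|]
  linarith

lemma hasSum_XY (i : Fin 2) (k : ℕ) : HasSum (fun m => X i m * Y (m + k) * w m k) (tgt i k) := by
  have hs := (summable_XY i k).hasSum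
  have hN : Tendsto (fun t => (sq t).1.N - k) atTop atTop := by
    apply tendsto_atTop_mono (f := fun t => t - k)
    · intro t
      have := N_ge t
      omega
    · exact tendsto_sub_atTop_nat k
  have h1 := hs.tendsto_sum_nat.comp hN
  have h2 : ∀ t, ∑ m ∈ range ((sq t).1.N - k), X i m * Y (m + k) * w m k =
      err (sq t).1 i k + tgt i k := by
    intro t
    unfold err
    rw [sub_add_cancel]
    rw [← sum_range_add_sum_Ico _ (show (sq t).1.N - k ≤ (sq t).1.N by omega)]
    have h3 : ∑ m ∈ Ico ((sq t).1.N - k) (sq t).1.N,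
        (sq t).1.x i m * (sq t).1.y (m + k) * w m k = 0 := by
      apply sum_eq_zero
      intro m hm
      rw [mem_Ico] at hm
      rw [(sq t).1.hy (m + k) (by omega)]
      ring
    rw [h3, add_zero]
    apply sum_congr rfl
    intro m hm
    rw [mem_range] at hm
    rw [X_eq t m (by omega), Y_eq t (m + k) (by omega)]
  have h4 : Tendsto (fun t => err (sq t).1 i k + tgt i k) atTop (𝓝 (0 + tgt i k)) := by
    apply Tendsto.add_const
    apply squeeze_zero_norm (a := cc)
    · intro t
      exact (cc_spec t).2.1 i k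
    · exact summable_cc.tendsto_atTop_zero
  have h5 : ((fun n => ∑ m ∈ range n, X i m * Y (m + k) * w m k) ∘ fun t => (sq t).1.N - k) =
      fun t => err (sq t).1 i k + tgt i k := by
    funext t
    exact h2 t
  rw [h5] at h1
  have h6 := tendsto_nhds_unique h1 h4
  rw [zero_add] at h6
  rw [← h6]
  exact hs

/-- The sequences. -/
theorem exists_seqs : ∃ (x : Fin 2 → ℕ → ℝ) (y : ℕ → ℝ), x 0 0 = 1 ∧ x 1 0 = 0 ∧
    (∀ i, Summable fun m => x i m ^ 2) ∧ (Summable fun m => y m ^ 2) ∧
    ∀ i k, HasSum (fun m => x i m * y (m + k) * w m k) (tgt i k) := by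
  refine ⟨X, Y, ?_, ?_, summable_X, summable_Y, hasSum_XY⟩
  · simp [X, sq, s0]
  · simp [X, sq, s0]

end Pool.Agent.H563Dom
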