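import Pool.Agent.Helper563.Dom.Model
import Pool.Agent.Helper563.Dom.Seq2
import Pool.Agent.Helper563.Dom.Hil

set_option autoImplicit false

namespace Pool.Agent.H563Dom
open MeasureTheory Filter Topology Complex ComplexConjugate Metric
open scoped ENNReal

lemma wT (m : ℕ) : Real.sqrt (((m : ℝ) + 1) / ((m : ℝ) + 2)) = w m 1 := by
  unfold w
  congr 2
  push_cast
  ring

lemma w_mul (m k : ℕ) : w (m + 1) k * w m 1 = w m (k + 1) := by
  unfold w
  rw [← Real.sqrt_mul (by positivity)]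
  congr 1
  push_cast
  have h1 : (m : ℝ) + 1 + 1 ≠ 0 := by positivity
  have h2 : (m : ℝ) + 1 + k + 1 ≠ 0 := by positivity
  have h3 : (m : ℝ) + (k + 1) + 1 ≠ 0 := by positivity
  field_simp
  ring

/-- There is a closed invariant subspace of index at least two. -/
theorem exists_model_space : ∃ (J : Submodule ℂ L2), IsClosed (J : Set L2) ∧ (∀ α ∈ J, T α ∈ J) ∧
    ∃ H ∈ J, ∃ K ∈ J, ‖H‖ = 1 ∧ ‖K‖ = 1 ∧ inner ℂ H K = 0 ∧
      (∃ p : ℝ, 0 < p ∧ ∀ α ∈ J, α 0 = (p : ℂ) * inner ℂ H α) ∧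
      (∀ α ∈ J, inner ℂ H (T α) = 0) ∧ (∀ α ∈ J, inner ℂ K (T α) = 0) := by
  obtain ⟨x, y, hx0, hx1, hxs, hys, hxy⟩ := exists_seqs
  have hxs' : ∀ i, Summable fun n => ‖((x i n : ℝ) : ℂ)‖ ^ 2 := by
    intro i
    refine (hxs i).congr fun n => ?_
    rw [Complex.norm_real, Real.norm_eq_abs, sq_abs]
  have hvs : ∀ k, Summable fun n => ‖((y (n + k) * w n k : ℝ) : ℂ)‖ ^ 2 := by
    intro k
    refine Summable.of_nonneg_of_le (fun n => by positivity) (fun n => ?_)
      ((summable_nat_add_iff k).2 hys)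
    rw [Complex.norm_real, Real.norm_eq_abs, sq_abs, mul_pow]
    have h1 := w_le_one n k
    have h2 := w_pos n k
    have h3 : w n k ^ 2 ≤ 1 := by nlinarith
    nlinarith [sq_nonneg (y (n + k))]
  set xx : Fin 2 → L2 := fun i => mk2 _ (hxs' i) with hxx
  set v : ℕ → L2 := fun k => mk2 _ (hvs k) with hv
  have hvx : ∀ i k, inner ℂ (v k) (xx i) = ((tgt i k : ℝ) : ℂ) := by
    intro i k
    have h1 := lp.hasSum_inner (𝕜 := ℂ) (v k) (xx i)
    have h2 := (Complex.hasSum_ofReal.2 (hxy i k))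
    refine h1.unique (h2.congr_fun fun n => ?_)
    change inner ℂ ((y (n + k) * w n k : ℝ) : ℂ) ((x i n : ℝ) : ℂ) = _
    rw [RCLike.inner_apply, Complex.conj_ofReal, ← Complex.ofReal_mul]
    congr 1
    ring
  have hvT : ∀ k α, inner ℂ (v k) (T α) = inner ℂ (v (k + 1)) α := by
    intro k α
    have h1 := lp.hasSum_inner (𝕜 := ℂ) (v k) (T α)
    have h2 := lp.hasSum_inner (𝕜 := ℂ) (v (k + 1)) α
    rw [← hasSum_nat_add_iff' 1] at h1
    have h3 : ∑ i ∈ Finset.range 1, inner ℂ (v k i) (T α i) = 0 := by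
      simp [T, mk2_apply, Tc]
    rw [h3, sub_zero] at h1
    refine h1.unique (h2.congr_fun fun n => ?_)
    change inner ℂ ((y (n + 1 + k) * w (n + 1) k : ℝ) : ℂ)
      (α n * (Real.sqrt (((n : ℝ) + 1) / ((n : ℝ) + 2)) : ℂ)) =
      inner ℂ ((y (n + (k + 1)) * w n (k + 1) : ℝ) : ℂ) (α n)
    rw [RCLike.inner_apply, RCLike.inner_apply, Complex.conj_ofReal, Complex.conj_ofReal, wT,
      ← w_mul n k, show n + 1 + k = n + (k + 1) by ring]
    push_cast
    ring
  set S : Submodule ℂ L2 := Submodule.span ℂ (Set.range fun k : ℕ => v (k + 1)) with hS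
  set J : Submodule ℂ L2 := Sᗮ with hJ
  have hJmem : ∀ α : L2, (∀ k, inner ℂ (v (k + 1)) α = 0) → α ∈ J := by
    intro α hα
    rw [hJ, Submodule.mem_orthogonal]
    intro u hu
    rw [hS] at hu
    induction hu using Submodule.span_induction with
    | mem u hu =>
      obtain ⟨k, rfl⟩ := hu
      exact hα k
    | zero => exact inner_zero_left _
    | add a b _ _ h1 h2 => rw [inner_add_left, h1, h2, add_zero]
    | smul c a _ h1 => rw [inner_smul_left, h1, mul_zero]
  have hJmem' : ∀ α ∈ J, ∀ k, inner ℂ (v (k + 1)) α = 0 := by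
    intro α hα k
    rw [hJ, Submodule.mem_orthogonal] at hα
    exact hα _ (Submodule.subset_span ⟨k, rfl⟩)
  have hTJ : ∀ α ∈ J, T α ∈ J := by
    intro α hα
    apply hJmem
    intro k
    rw [hvT]
    exact hJmem' α hα (k + 1)
  have hxJ : ∀ i, xx i ∈ J := by
    intro i
    apply hJmem
    intro k
    rw [hvx]
    have : tgt i (k + 1) = 0 := by
      unfold tgt
      rw [if_neg]
      omega
    rw [this, Complex.ofReal_zero]
  set e : L2 := lp.single 2 0 (1 : ℂ) with he
  have hee : ∀ α : L2, inner ℂ e α = α 0 := by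
    intro α
    rw [he, lp.inner_single_left]
    simp
  have hJc : IsClosed (J : Set L2) := Submodule.isClosed_orthogonal S
  have hmain := hilb J T e (v 0) (xx 0) (xx 1) (hxJ 0) (hxJ 1)
    (by rw [hee]; change ((x 0 0 : ℝ) : ℂ) ≠ 0; rw [hx0]; simp)
    (by rw [hee]; change ((x 1 0 : ℝ) : ℂ) = 0; rw [hx1]; simp)
    (by rw [hvx]; simp [tgt]) hTJ
    (by intro α _; rw [hee]; rfl)
    (by intro α hα; rw [hvT]; exact hJmem' α hα 0)
  obtain ⟨H, hH, K, hK, h1, h2, h3, ⟨p, hp, h4⟩, h5, h6⟩ := hmain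
  refine ⟨J, hJc, hTJ, H, hH, K, hK, h1, h2, h3, ⟨p, hp, ?_⟩, h5, h6⟩
  intro α hα
  rw [← hee]
  exact h4 α hα

/-! ### failure of domination -/

/-- a bounded continuous multiplier preserves `L²` -/
lemma memLp_mul {f : ℂ → ℂ} (hf : MemLp f 2 μD) {h : ℂ → ℂ} (hh : Continuous h) :
    MemLp (fun z => f z * h z) 2 μD := by
  obtain ⟨C, hC⟩ := (isCompact_closedBall (0 : ℂ) 1).exists_bound_of_continuousOn hh.continuousOn
  refine MemLp.of_le_mul (c := C) hf (hf.1.mul hh.aestronglyMeasurable) ?_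
  filter_upwards [ae_restrict_mem measurableSet_ball] with z hz
  rw [norm_mul, mul_comm]
  exact mul_le_mul_of_nonneg_right (hC z (ball_subset_closedBall hz)) (norm_nonneg _)

/-- If `K ≠ 0`, `H 0 ≠ 0`, some polynomial `h` has `∫ |h|² H conj K ≠ 0`. -/
theorem exists_poly {H K : L2} {f g : ℂ → ℂ} (hf : IsPS (coef H) f) (hg : IsPS (coef K) g)
    (hf0 : f 0 ≠ 0) (hK : K ≠ 0) : ∃ h : Polynomial ℂ,
      ∫ z, (f z * h.eval z) * conj (g z * h.eval z) ∂μD ≠ 0 := by
  by_contra hcon
  push Not at hcon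
  have hf2 := memLp_of_isPS hf
  have hg2 := memLp_of_isPS hg
  have hmon : ∀ n : ℕ, Continuous fun z : ℂ => z ^ n := fun n => continuous_pow n
  have hI : ∀ m n : ℕ, Integrable (fun z => (f z * z ^ m) * conj (g z * z ^ n)) μD := fun m n =>
    (memLp_mul hf2 (hmon m)).integrable_mul (memLp_mul hg2 (hmon n)).star
  -- polarisation
  have hpol : ∀ (c : ℂ) (m n : ℕ),
      (∫ z, (f z * z ^ m) * conj (g z * z ^ m) ∂μD) +
      c * conj c * (∫ z, (f z * z ^ n) * conj (g z * z ^ n) ∂μD) +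
      conj c * (∫ z, (f z * z ^ m) * conj (g z * z ^ n) ∂μD) +
      c * (∫ z, (f z * z ^ n) * conj (g z * z ^ m) ∂μD) = 0 := by
    intro c m n
    have h1 := hcon (Polynomial.X ^ m + Polynomial.C c * Polynomial.X ^ n)
    have e : ∀ z : ℂ, f z * Polynomial.eval z (Polynomial.X ^ m + Polynomial.C c * Polynomial.X ^ n) *
        conj (g z * Polynomial.eval z (Polynomial.X ^ m + Polynomial.C c * Polynomial.X ^ n)) =
        (f z * z ^ m) * conj (g z * z ^ m) + c * conj c * ((f z * z ^ n) * conj (g z * z ^ n)) +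
        conj c * ((f z * z ^ m) * conj (g z * z ^ n)) + c * ((f z * z ^ n) * conj (g z * z ^ m)) := by
      intro z
      simp only [Polynomial.eval_add, Polynomial.eval_pow, Polynomial.eval_X, Polynomial.eval_mul,
        Polynomial.eval_C, map_add, map_mul, map_pow]
      ring
    simp only [e] at h1
    have i1 := hI m m
    have i2 := (hI n n).const_mul (c * conj c)
    have i3 := (hI m n).const_mul (conj c)
    have i4 := (hI n m).const_mul c
    have i12 : Integrable (fun z => (f z * z ^ m) * conj (g z * z ^ m) +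
        c * conj c * ((f z * z ^ n) * conj (g z * z ^ n))) μD := i1.add i2
    have i123 : Integrable (fun z => (f z * z ^ m) * conj (g z * z ^ m) +
        c * conj c * ((f z * z ^ n) * conj (g z * z ^ n)) +
        conj c * ((f z * z ^ m) * conj (g z * z ^ n))) μD := i12.add i3
    rw [integral_add i123 i4, integral_add i12 i3, integral_add i1 i2, integral_const_mul,
      integral_const_mul, integral_const_mul] at h1
    exact h1
  have hdiag : ∀ m, ∫ z, (f z * z ^ m) * conj (g z * z ^ m) ∂μD = 0 := by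
    intro m
    have h1 := hcon (Polynomial.X ^ m)
    simpa using h1
  have hmom : ∀ m n : ℕ, ∫ z, (f z * z ^ m) * conj (g z * z ^ n) ∂μD = 0 := by
    intro m n
    have h1 := hpol 1 m n
    have h2 := hpol Complex.I m n
    rw [hdiag m, hdiag n] at h1 h2
    simp only [map_one, mul_one, one_mul, add_zero, zero_add, conj_I, mul_zero] at h1 h2
    have h3 : Complex.I * ((∫ z, (f z * z ^ n) * conj (g z * z ^ m) ∂μD) -
        ∫ z, (f z * z ^ m) * conj (g z * z ^ n) ∂μD) = 0 := by
      linear_combination h2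
    have h4 := (mul_eq_zero.1 h3).resolve_left Complex.I_ne_zero
    linear_combination (1 / 2 : ℂ) * h1 - (1 / 2 : ℂ) * h4
  have hF : Integrable (fun z => f z * conj (g z)) μD := hf2.integrable_mul hg2.star
  have hz := ae_zero_of_moments hF (by
    intro m n
    rw [← hmom m n]
    apply integral_congr_ae
    filter_upwards with z
    simp only [map_mul, map_pow]
    ring)
  -- pointwise
  have hcf : ContinuousOn (fun z => f z * conj (g z)) (ball (0 : ℂ) 1) :=
    hf.differentiableOn.continuousOn.mul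
      (Complex.continuous_conj.comp_continuousOn hg.differentiableOn.continuousOn)
  have hpt : Set.EqOn (fun z => f z * conj (g z)) (fun _ => 0) (ball (0 : ℂ) 1) :=
    Measure.eqOn_open_of_ae_eq (μ := volume) hz isOpen_ball hcf continuousOn_const
  have hcf0 : ContinuousAt f 0 :=
    (hf.differentiableOn.differentiableAt (isOpen_ball.mem_nhds (by simp))).continuousAt
  have hev : ∀ᶠ z in 𝓝 (0 : ℂ), g z = 0 := by
    filter_upwards [hcf0.eventually_ne hf0, isOpen_ball.mem_nhds (by simp : (0 : ℂ) ∈ ball (0 : ℂ) 1)]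
      with z hz1 hz2
    have h1 := hpt hz2
    simp only at h1
    have h2 := (mul_eq_zero.1 h1).resolve_left hz1
    exact (map_eq_zero _).1 h2
  have hgan : AnalyticOnNhd ℂ g (ball (0 : ℂ) 1) := hg.differentiableOn.analyticOnNhd isOpen_ball
  have hg0 : Set.EqOn g 0 (ball (0 : ℂ) 1) :=
    hgan.eqOn_zero_of_preconnected_of_eventuallyEq_zero (convex_ball _ _).isPreconnected
      (by simp : (0 : ℂ) ∈ ball (0 : ℂ) 1) hev
  apply hK
  apply coef_inj
  have hz0 : IsPS (coef (0 : L2)) g := by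
    intro z hz
    have h1 : (fun n => coef (0 : L2) n * z ^ n) = fun _ => 0 := by
      funext n
      simp [coef]
    rw [h1, hg0 hz]
    exact hasSum_zero
  exact hg.unique hz0

/-- The main theorem. -/
theorem main : ∃ I J : Set (ℂ → ℂ), IsInvSubspace I ∧ IsInvSubspace J ∧ I ⊆ J ∧
    (∃ f ∈ I, f 0 ≠ 0) ∧ ∃ HI HJ : ℂ → ℂ, IsExtremal I HI ∧ IsExtremal J HJ ∧
      ∃ h : Polynomial ℂ, MemBergman (fun z => h.eval z) ∧
        normSq (fun z => HI z * h.eval z) < normSq (fun z => HJ z * h.eval z) := by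
  obtain ⟨J, hJc, hTJ, H, hHJ, K, hKJ, hH1, hK1, hHK, ⟨p, hp, hpJ⟩, hHT, hKT⟩ := exists_model_space
  have hHJe := isExtremal_Fn J hHJ hH1 hp hpJ
  have hHH : inner ℂ H H = (1 : ℂ) := by rw [inner_self_eq_norm_sq_to_K, hH1]; simp
  have hKK : inner ℂ K K = (1 : ℂ) := by rw [inner_self_eq_norm_sq_to_K, hK1]; simp
  have hKH : inner ℂ K H = (0 : ℂ) := by rw [← inner_conj_symm, hHK, map_zero]
  have hf0 : fn H 0 ≠ 0 := by
    rw [(isPS_fn H).at_zero, coef_zero, hpJ H hHJ, hHH, mul_one]
    exact_mod_cast hp.ne'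
  have hK0 : K ≠ 0 := by
    intro h
    rw [h, norm_zero] at hK1
    exact zero_ne_one hK1
  obtain ⟨h, hh⟩ := exists_poly (isPS_fn H) (isPS_fn K) hf0 hK0
  set C := ∫ z, (fn H z * h.eval z) * conj (fn K z * h.eval z) ∂μD with hC
  have hhc : Continuous fun z : ℂ => h.eval z := h.continuous
  have hLH : MemLp (fun z => fn H z * h.eval z) 2 μD := memLp_mul (memLp_of_isPS (isPS_fn H)) hhc
  have hLK : MemLp (fun z => fn K z * h.eval z) 2 μD := memLp_mul (memLp_of_isPS (isPS_fn K)) hhc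
  set A := ∫ z, ‖fn H z * h.eval z‖ ^ 2 ∂μD with hA
  set B := ∫ z, ‖fn K z * h.eval z‖ ^ 2 ∂μD with hB
  have hA0 : 0 ≤ A := integral_nonneg fun z => by positivity
  have hB0 : 0 ≤ B := integral_nonneg fun z => by positivity
  have hCn : 0 < ‖C‖ := norm_pos_iff.2 hh
  -- parameters
  set s : ℝ := ‖C‖ / (2 * (B + 1 + ‖C‖)) with hs
  have hs0 : 0 < s := by positivity
  have hs1 : s < 1 / 2 := by
    rw [hs, div_lt_div_iff₀ (by positivity) (by norm_num)]
    nlinarith
  have hsB : s * B < ‖C‖ := by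
    rw [hs, div_mul_eq_mul_div, div_lt_iff₀ (by positivity)]
    nlinarith
  set c : ℝ := Real.sqrt (1 - s ^ 2) with hc
  have hc2 : c ^ 2 = 1 - s ^ 2 := Real.sq_sqrt (by nlinarith)
  have hc12 : 1 / 2 < c := by
    rw [hc, Real.lt_sqrt (by norm_num)]
    nlinarith
  have hc0 : 0 < c := by linarith
  set ω : ℂ := -(C / (‖C‖ : ℂ)) with hω
  have hCc : (‖C‖ : ℂ) ≠ 0 := by exact_mod_cast hCn.ne'
  have hωω : conj ω * ω = 1 := by
    rw [hω, map_neg, neg_mul_neg, map_div₀, Complex.conj_ofReal, div_mul_div_comm,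
      mul_comm (conj C) C, Complex.mul_conj, Complex.normSq_eq_norm_sq]
    push_cast
    field_simp
  have hωC : (conj ω * C).re = -‖C‖ := by
    rw [hω, map_neg, neg_mul, map_div₀, Complex.conj_ofReal, div_mul_eq_mul_div,
      mul_comm (conj C) C, Complex.mul_conj, Complex.normSq_eq_norm_sq, Complex.neg_re]
    have : ((‖C‖ ^ 2 : ℝ) : ℂ) / (‖C‖ : ℂ) = ((‖C‖ : ℝ) : ℂ) := by
      push_cast
      field_simp
    rw [this, Complex.ofReal_re]
  -- the vectors
  set G : L2 := (c : ℂ) • H + ((s : ℂ) * ω) • K with hG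
  set L : L2 := (s : ℂ) • H - ((c : ℂ) * ω) • K with hL
  have hGJ : G ∈ J := J.add_mem (J.smul_mem _ hHJ) (J.smul_mem _ hKJ)
  have hcc : (c : ℂ) * c = 1 - (s : ℂ) * s := by
    have : ((c ^ 2 : ℝ) : ℂ) = ((1 - s ^ 2 : ℝ) : ℂ) := by rw [hc2]
    push_cast at this
    linear_combination this
  have hGin : ∀ α, inner ℂ G α = (c : ℂ) * inner ℂ H α + (s : ℂ) * conj ω * inner ℂ K α := by
    intro α
    rw [hG, inner_add_left, inner_smul_left, inner_smul_left, Complex.conj_ofReal, map_mul,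
      Complex.conj_ofReal]
  have hLin : ∀ α, inner ℂ L α = (s : ℂ) * inner ℂ H α - (c : ℂ) * conj ω * inner ℂ K α := by
    intro α
    rw [hL, inner_sub_left, inner_smul_left, inner_smul_left, Complex.conj_ofReal, map_mul,
      Complex.conj_ofReal]
  have hHG : inner ℂ H G = (c : ℂ) := by
    rw [hG, inner_add_right, inner_smul_right, inner_smul_right, hHH, hHK]
    ring
  have hKG : inner ℂ K G = (s : ℂ) * ω := by
    rw [hG, inner_add_right, inner_smul_right, inner_smul_right, hKH, hKK]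
    ring
  have hGG : inner ℂ G G = (1 : ℂ) := by
    rw [hGin, hHG, hKG]
    linear_combination hcc + (s : ℂ) * s * hωω
  have hG1 : ‖G‖ = 1 := by
    have h1 := @inner_self_eq_norm_sq_to_K ℂ L2 _ _ _ G
    rw [hGG] at h1
    have h2 : ((‖G‖ ^ 2 : ℝ) : ℂ) = ((1 : ℝ) : ℂ) := by
      push_cast
      exact h1.symm
    have h3 : ‖G‖ ^ 2 = 1 := Complex.ofReal_injective h2
    nlinarith [norm_nonneg G]
  have hLG : inner ℂ L G = (0 : ℂ) := by
    rw [hLin, hHG, hKG]
    linear_combination (-(c : ℂ) * s) * hωω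
  set I : Submodule ℂ L2 := J ⊓ (Submodule.span ℂ {L})ᗮ with hI
  have hImem : ∀ α, α ∈ I ↔ α ∈ J ∧ inner ℂ L α = 0 := by
    intro α
    rw [hI, Submodule.mem_inf, Submodule.mem_orthogonal_singleton_iff_inner_right]
  have hIc : IsClosed (I : Set L2) := by
    rw [hI, Submodule.coe_inf]
    exact hJc.inter (Submodule.isClosed_orthogonal _)
  have hTI : ∀ α ∈ I, T α ∈ I := by
    intro α hα
    rw [hImem] at hα ⊢
    refine ⟨hTJ α hα.1, ?_⟩
    rw [hLin, hHT α hα.1, hKT α hα.1]
    ring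
  have hGI : G ∈ I := (hImem G).2 ⟨hGJ, hLG⟩
  have hIe : ∀ α ∈ I, α 0 = ((p * c : ℝ) : ℂ) * inner ℂ G α := by
    intro α hα
    rw [hImem] at hα
    rw [hpJ α hα.1, hGin]
    have h1 := hα.2
    rw [hLin] at h1
    push_cast
    linear_combination (p : ℂ) * s * h1 - (p : ℂ) * inner ℂ H α * hcc
  have hIex := isExtremal_Fn I hGI hG1 (show 0 < p * c by positivity) hIe
  have hfnG : ∀ z ∈ ball (0 : ℂ) 1, fn G z = c * fn H z + s * ω * fn K z := by
    have h1 : IsPS (coef G) (fun z => c * fn H z + s * ω * fn K z) := by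
      rw [hG, coef_add, coef_smul, coef_smul]
      exact ((isPS_fn H).smul _).add ((isPS_fn K).smul _)
    exact (isPS_fn G).eqOn h1
  refine ⟨Fn I, Fn J, isInv_Fn I hIc hTI, isInv_Fn J hJc hTJ, ?_, ?_, fn G, fn H, hIex, hHJe, h,
    ?_, ?_⟩
  · rintro f ⟨α, hα, hf⟩
    exact ⟨α, ((hImem α).1 hα).1, hf⟩
  · refine ⟨fn G, ⟨G, hGI, isPS_fn G⟩, ?_⟩
    rw [(isPS_fn G).at_zero, coef_zero, hIe G hGI, hGG, mul_one]
    exact_mod_cast (mul_pos hp hc0).ne'
  · refine ⟨h.differentiable.differentiableOn, ?_⟩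
    have h1 : MemLp (fun z : ℂ => h.eval z) 2 μD := by
      have h2 : MemLp (fun _ : ℂ => (1 : ℂ)) 2 μD := memLp_const 1
      simpa using memLp_mul h2 hhc
    rw [normSq_eq h1]
    exact ENNReal.ofReal_lt_top
  · have hLG2 : MemLp (fun z => fn G z * h.eval z) 2 μD :=
      memLp_mul (memLp_of_isPS (isPS_fn G)) hhc
    rw [normSq_eq hLG2, normSq_eq hLH, ENNReal.ofReal_lt_ofReal_iff_of_nonneg
      (mul_nonneg (by positivity) (integral_nonneg fun z => by positivity))]
    apply mul_lt_mul_of_pos_left _ (inv_pos.2 Real.pi_pos)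
    have hIC : Integrable (fun z => (fn H z * h.eval z) * conj (fn K z * h.eval z)) μD :=
      hLH.integrable_mul hLK.star
    have hexp : ∫ z, ‖fn G z * h.eval z‖ ^ 2 ∂μD =
        c ^ 2 * A + s ^ 2 * B + 2 * c * s * (conj ω * C).re := by
      have h1 : (fun z => ‖fn G z * h.eval z‖ ^ 2) =ᵐ[μD] fun z =>
          (c ^ 2 * ‖fn H z * h.eval z‖ ^ 2 + s ^ 2 * ‖fn K z * h.eval z‖ ^ 2) +
          2 * c * s * (conj ω * ((fn H z * h.eval z) * conj (fn K z * h.eval z))).re := by
        filter_upwards [ae_restrict_mem measurableSet_ball] with z hz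
        rw [hfnG z hz]
        set a := fn H z * h.eval z with ha
        set b := fn K z * h.eval z with hb
        have e1 : (c * fn H z + s * ω * fn K z) * h.eval z = c * a + s * ω * b := by
          rw [ha, hb]; ring
        rw [e1, ← Complex.normSq_eq_norm_sq, ← Complex.normSq_eq_norm_sq,
          ← Complex.normSq_eq_norm_sq, Complex.normSq_add]
        have e2 : Complex.normSq (c * a) = c ^ 2 * Complex.normSq a := by
          rw [Complex.normSq_mul, Complex.normSq_ofReal]; ring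
        have hω2 : Complex.normSq ω = 1 := by
          have : ((Complex.normSq ω : ℝ) : ℂ) = 1 := by
            rw [← Complex.mul_conj, mul_comm]; exact hωω
          exact_mod_cast this
        have e3 : Complex.normSq (s * ω * b) = s ^ 2 * Complex.normSq b := by
          rw [Complex.normSq_mul, Complex.normSq_mul, Complex.normSq_ofReal, hω2]; ring
        rw [e2, e3]
        congr 1
        have e4 : (c : ℂ) * a * conj (s * ω * b) = ((c * s : ℝ) : ℂ) * (conj ω * (a * conj b)) := by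
          simp only [map_mul, Complex.conj_ofReal]
          push_cast
          ring
        rw [e4, Complex.re_ofReal_mul]
        ring
      rw [integral_congr_ae h1, integral_add, integral_add, integral_const_mul, integral_const_mul,
        integral_const_mul]
      · congr 1
        congr 1
        have h2 := (hIC.const_mul (conj ω))
        have h3 : ∫ z, (conj ω * ((fn H z * h.eval z) * conj (fn K z * h.eval z))).re ∂μD =
            (∫ z, conj ω * ((fn H z * h.eval z) * conj (fn K z * h.eval z)) ∂μD).re :=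
          integral_re h2
        rw [h3, integral_const_mul]
      · exact (hLH.norm.integrable_sq).const_mul _
      · exact (hLK.norm.integrable_sq).const_mul _
      · exact ((hLH.norm.integrable_sq).const_mul _).add ((hLK.norm.integrable_sq).const_mul _)
      · exact ((hIC.const_mul (conj ω)).re).const_mul _
    rw [hexp, hωC, hc2]
    have h2 : s * (s * B) < s * ‖C‖ := mul_lt_mul_of_pos_left hsB hs0
    have h3 : s * ‖C‖ ≤ 2 * c * s * ‖C‖ := by
      have : 1 ≤ 2 * c := by linarith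
      nlinarith [mul_pos hs0 hCn]
    have h4 : 0 ≤ s ^ 2 * A := by positivity
    nlinarith

end Pool.Agent.H563Dom
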