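import Pool.Agent.Helper563.Dom.Berg

set_option autoImplicit false

namespace Pool.Agent.H563Dom
open MeasureTheory Filter Topology Complex ComplexConjugate Metric
open scoped ContDiff

/-- area measure on the disc -/
noncomputable abbrev μD : Measure ℂ := volume.restrict (Metric.ball (0 : ℂ) 1)

/-- the monomials `z^m conj z^n` -/
noncomputable def mono (p : ℕ × ℕ) (z : ℂ) : ℂ := z ^ p.1 * conj z ^ p.2

/-- their span -/
noncomputable def PSpan : Submodule ℂ (ℂ → ℂ) := Submodule.span ℂ (Set.range mono)

lemma PSpan_mul {p q : ℂ → ℂ} (hp : p ∈ PSpan) (hq : q ∈ PSpan) : p * q ∈ PSpan := by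
  unfold PSpan at *
  induction hp using Submodule.span_induction with
  | mem x hx =>
    obtain ⟨a, rfl⟩ := hx
    induction hq using Submodule.span_induction with
    | mem y hy =>
      obtain ⟨b, rfl⟩ := hy
      apply Submodule.subset_span
      refine ⟨(a.1 + b.1, a.2 + b.2), ?_⟩
      funext z
      simp only [mono, Pi.mul_apply, pow_add]
      ring
    | zero => rw [mul_zero]; exact Submodule.zero_mem _
    | add y y' _ _ h1 h2 => rw [mul_add]; exact Submodule.add_mem _ h1 h2
    | smul c y _ h1 => rw [mul_smul_comm]; exact Submodule.smul_mem _ c h1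
  | zero => rw [zero_mul]; exact Submodule.zero_mem _
  | add y y' _ _ h1 h2 => rw [add_mul]; exact Submodule.add_mem _ h1 h2
  | smul c y _ h1 => rw [smul_mul_assoc]; exact Submodule.smul_mem _ c h1

lemma PSpan_star {p : ℂ → ℂ} (hp : p ∈ PSpan) : (fun z => conj (p z)) ∈ PSpan := by
  unfold PSpan at *
  induction hp using Submodule.span_induction with
  | mem x hx =>
    obtain ⟨a, rfl⟩ := hx
    apply Submodule.subset_span
    refine ⟨(a.2, a.1), ?_⟩
    funext z
    simp only [mono, map_mul, map_pow, conj_conj]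
    ring
  | zero =>
    have : (fun z : ℂ => conj ((0 : ℂ → ℂ) z)) = 0 := by funext z; simp
    rw [this]; exact Submodule.zero_mem _
  | add y y' _ _ h1 h2 =>
    have : (fun z : ℂ => conj ((y + y') z)) = (fun z => conj (y z)) + fun z => conj (y' z) := by
      funext z; simp
    rw [this]; exact Submodule.add_mem _ h1 h2
  | smul c y _ h1 =>
    have : (fun z : ℂ => conj ((c • y) z)) = conj c • fun z => conj (y z) := by
      funext z; simp
    rw [this]; exact Submodule.smul_mem _ _ h1

lemma PSpan_cont {p : ℂ → ℂ} (hp : p ∈ PSpan) : Continuous p := by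
  unfold PSpan at hp
  induction hp using Submodule.span_induction with
  | mem x hx =>
    obtain ⟨a, rfl⟩ := hx
    unfold mono
    fun_prop
  | zero => exact continuous_const
  | add y y' _ _ h1 h2 => exact h1.add h2
  | smul c y _ h1 => exact h1.const_smul c

instance : CompactSpace (closedBall (0 : ℂ) 1) := isCompact_iff_compactSpace.1 (isCompact_closedBall _ _)

/-- approximation by polynomials in `z`, `conj z` -/
lemma approx (g : ℂ → ℂ) (hg : Continuous g) {ε : ℝ} (hε : 0 < ε) :
    ∃ p ∈ PSpan, ∀ z ∈ closedBall (0 : ℂ) 1, ‖g z - p z‖ < ε := by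
  set idK : C(closedBall (0 : ℂ) 1, ℂ) := ⟨fun x => (x : ℂ), continuous_subtype_val⟩ with hid
  set gK : C(closedBall (0 : ℂ) 1, ℂ) := ⟨fun x => g x, hg.comp continuous_subtype_val⟩ with hgK
  set A : StarSubalgebra ℂ C(closedBall (0 : ℂ) 1, ℂ) := StarAlgebra.adjoin ℂ {idK} with hA
  have hsep : A.SeparatesPoints := by
    intro x y hxy
    refine ⟨fun x => (x : ℂ), ⟨idK, ?_, rfl⟩, ?_⟩
    · exact StarAlgebra.subset_adjoin ℂ _ rfl
    · exact fun h => hxy (Subtype.ext h)
  have htop := ContinuousMap.starSubalgebra_topologicalClosure_eq_top_of_separatesPoints A hsep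
  have hmem : gK ∈ A.topologicalClosure := by rw [htop]; trivial
  have hmem2 : gK ∈ closure (A : Set C(closedBall (0 : ℂ) 1, ℂ)) := hmem
  rw [Metric.mem_closure_iff] at hmem2
  obtain ⟨a, ha, hda⟩ := hmem2 ε hε
  have hex : ∃ p ∈ PSpan, ∀ x : closedBall (0 : ℂ) 1, a x = p x := by
    clear hda
    have ha' : a ∈ StarAlgebra.adjoin ℂ ({idK} : Set C(closedBall (0 : ℂ) 1, ℂ)) := ha
    induction ha' using StarAlgebra.adjoin_induction with
    | mem x hx =>
      rw [Set.mem_singleton_iff] at hx
      refine ⟨mono (1, 0), Submodule.subset_span ⟨(1, 0), rfl⟩, ?_⟩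
      intro z
      rw [hx]
      simp [mono, hid]
    | algebraMap r =>
      refine ⟨r • mono (0, 0), Submodule.smul_mem _ _ (Submodule.subset_span ⟨(0, 0), rfl⟩), ?_⟩
      intro z
      simp [mono]
    | add x y _ _ h1 h2 =>
      obtain ⟨p, hp, hp'⟩ := h1 (by assumption)
      obtain ⟨q, hq, hq'⟩ := h2 (by assumption)
      refine ⟨p + q, Submodule.add_mem _ hp hq, ?_⟩
      intro z
      simp [hp', hq']
    | mul x y _ _ h1 h2 =>
      obtain ⟨p, hp, hp'⟩ := h1 (by assumption)
      obtain ⟨q, hq, hq'⟩ := h2 (by assumption)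
      refine ⟨p * q, PSpan_mul hp hq, ?_⟩
      intro z
      simp [hp', hq']
    | star x _ h1 =>
      obtain ⟨p, hp, hp'⟩ := h1 (by assumption)
      refine ⟨fun z => conj (p z), PSpan_star hp, ?_⟩
      intro z
      simp [hp']
  obtain ⟨p, hp, hpa⟩ := hex
  refine ⟨p, hp, ?_⟩
  intro z hz
  have h1 := ContinuousMap.dist_apply_le_dist (f := gK) (g := a) ⟨z, hz⟩
  rw [hpa] at h1
  have h2 : dist (gK ⟨z, hz⟩) (p z) < ε := h1.trans_lt hda
  rw [dist_eq_norm] at h2
  exact h2

/-- an integrable function on the disc all of whose moments vanish is zero -/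
theorem ae_zero_of_moments {F : ℂ → ℂ} (hF : Integrable F μD)
    (h : ∀ m n : ℕ, ∫ z, z ^ m * conj z ^ n * F z ∂μD = 0) : ∀ᵐ z ∂μD, F z = 0 := by
  have hbound : ∀ p : ℂ → ℂ, Continuous p → Integrable (fun z => p z * F z) μD := by
    intro p hp
    obtain ⟨C, hC⟩ := (isCompact_closedBall (0 : ℂ) 1).exists_bound_of_continuousOn hp.continuousOn
    refine hF.bdd_mul hp.aestronglyMeasurable (c := C) ?_
    filter_upwards [ae_restrict_mem measurableSet_ball] with z hz
    exact hC z (ball_subset_closedBall hz)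
  have hspan : ∀ p ∈ PSpan, ∫ z, p z * F z ∂μD = 0 := by
    intro p hp
    unfold PSpan at hp
    induction hp using Submodule.span_induction with
    | mem x hx =>
      obtain ⟨a, rfl⟩ := hx
      exact h a.1 a.2
    | zero => simp
    | add y y' hy hy' h1 h2 =>
      have e : (fun z => (y + y') z * F z) = fun z => y z * F z + y' z * F z := by
        funext z; simp [add_mul]
      rw [e, integral_add (hbound y (PSpan_cont hy)) (hbound y' (PSpan_cont hy')), h1, h2, add_zero]
    | smul c y _ h1 =>
      have e : (fun z => (c • y) z * F z) = fun z => c * (y z * F z) := by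
        funext z; simp [mul_assoc]
      rw [e, integral_const_mul, h1, mul_zero]
  have hcont : ∀ g : ℂ → ℂ, Continuous g → ∫ z, g z * F z ∂μD = 0 := by
    intro g hg
    by_contra hne
    set M : ℝ := ∫ z, ‖F z‖ ∂μD with hM
    have hM0 : 0 ≤ M := integral_nonneg fun z => norm_nonneg _
    set c := ‖∫ z, g z * F z ∂μD‖ with hc
    have hc0 : 0 < c := norm_pos_iff.2 hne
    obtain ⟨p, hp, hpa⟩ := approx g hg (show 0 < c / (2 * (M + 1)) by positivity)
    have h1 : ∫ z, g z * F z ∂μD = ∫ z, (g z - p z) * F z ∂μD := by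
      have e : (fun z => (g z - p z) * F z) = fun z => g z * F z - p z * F z := by
        funext z; ring
      rw [e, integral_sub (hbound g hg) (hbound p (PSpan_cont hp)), hspan p hp, sub_zero]
    have h2 : ‖∫ z, (g z - p z) * F z ∂μD‖ ≤ ∫ z, (c / (2 * (M + 1))) * ‖F z‖ ∂μD := by
      refine norm_integral_le_of_norm_le (hF.norm.const_mul _) ?_
      filter_upwards [ae_restrict_mem measurableSet_ball] with z hz
      rw [norm_mul]
      exact mul_le_mul_of_nonneg_right (hpa z (ball_subset_closedBall hz)).le (norm_nonneg _)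
    rw [← h1, ← hc, integral_const_mul, ← hM, div_mul_eq_mul_div,
      le_div_iff₀ (by positivity)] at h2
    nlinarith
  apply ae_eq_zero_of_integral_contDiff_smul_eq_zero hF.locallyIntegrable
  intro g hg _
  have := hcont (fun z => (g z : ℂ)) (Complex.continuous_ofReal.comp hg.continuous)
  simpa only [Complex.real_smul] using this

end Pool.Agent.H563Dom
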