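import Pool.Agent.Helper563.Dom.Defs
import Pool.Agent.Helper563.Dom.SW

set_option autoImplicit false

namespace Pool.Agent.H563Dom
open MeasureTheory Filter Topology Complex ComplexConjugate Metric
open scoped ENNReal

/-- the coefficient model -/
noncomputable abbrev L2 := lp (fun _ : ℕ => ℂ) 2

lemma memL2 {f : ℕ → ℂ} (h : Summable fun n => ‖f n‖ ^ 2) : Memℓp f 2 := by
  apply memℓp_gen
  simpa using h

/-- element of the model with given coefficients -/
noncomputable def mk2 (f : ℕ → ℂ) (h : Summable fun n => ‖f n‖ ^ 2) : L2 := ⟨f, memL2 h⟩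

lemma mk2_apply (f : ℕ → ℂ) (h : Summable fun n => ‖f n‖ ^ 2) (n : ℕ) : mk2 f h n = f n := rfl

lemma summable_sq (α : L2) : Summable fun n => ‖α n‖ ^ 2 := by
  have := (lp.memℓp α).summable (by norm_num)
  simpa using this

lemma norm_sq_eq (α : L2) : HasSum (fun n => ‖α n‖ ^ 2) (‖α‖ ^ 2) := by
  have := lp.hasSum_norm (p := 2) (by norm_num) α
  simpa using this

/-- Taylor coefficients -/
noncomputable def coef (α : L2) (n : ℕ) : ℂ := α n * (Real.sqrt ((n : ℝ) + 1) : ℂ)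

lemma coef_zero (α : L2) : coef α 0 = α 0 := by simp [coef]

lemma norm_coef_sq (α : L2) (n : ℕ) : ‖coef α n‖ ^ 2 = ‖α n‖ ^ 2 * ((n : ℝ) + 1) := by
  unfold coef
  rw [norm_mul, mul_pow, Complex.norm_real, Real.norm_of_nonneg (Real.sqrt_nonneg _),
    Real.sq_sqrt (by positivity)]

/-- the function -/
noncomputable def fn (α : L2) (z : ℂ) : ℂ := ∑' n, coef α n * z ^ n

lemma isPS_fn (α : L2) : IsPS (coef α) (fn α) := by
  apply isPS_tsum
  intro ρ h0 h1
  have h2 : Summable fun n : ℕ => (n : ℝ) ^ 1 * ρ ^ n :=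
    summable_pow_mul_geometric_of_norm_lt_one 1 (by rwa [Real.norm_of_nonneg h0])
  have h3 : Summable fun n : ℕ => ρ ^ n := summable_geometric_of_lt_one h0 h1
  have h4 : Summable fun n : ℕ => ‖α‖ * ((n : ℝ) ^ 1 * ρ ^ n + ρ ^ n) := (h2.add h3).mul_left _
  refine Summable.of_nonneg_of_le (fun n => by positivity) (fun n => ?_) h4
  have h5 : ‖α n‖ ≤ ‖α‖ := lp.norm_apply_le_norm (by norm_num) α n
  have h6 : Real.sqrt ((n : ℝ) + 1) ≤ (n : ℝ) + 1 := by
    have : (0 : ℝ) ≤ n := Nat.cast_nonneg n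
    exact Real.sqrt_le_iff.2 ⟨by positivity, by nlinarith⟩
  unfold coef
  rw [norm_mul, Complex.norm_real, Real.norm_of_nonneg (Real.sqrt_nonneg _)]
  calc ‖α n‖ * Real.sqrt ((n : ℝ) + 1) * ρ ^ n ≤ ‖α‖ * ((n : ℝ) + 1) * ρ ^ n := by gcongr
    _ = ‖α‖ * ((n : ℝ) ^ 1 * ρ ^ n + ρ ^ n) := by ring

lemma IsPS.at_zero {a : ℕ → ℂ} {f : ℂ → ℂ} (h : IsPS a f) : f 0 = a 0 := by
  have h1 := h 0 (by simp)
  have h2 := hasSum_single (f := fun n => a n * (0 : ℂ) ^ n) 0 (by
    intro n hn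
    simp [hn])
  have h3 := h1.unique h2
  simpa using h3

lemma IsPS.congr {a : ℕ → ℂ} {f g : ℂ → ℂ} (h : IsPS a f)
    (hg : ∀ z ∈ Metric.ball (0 : ℂ) 1, g z = f z) : IsPS a g := by
  intro z hz
  rw [hg z hz]
  exact h z hz

lemma IsPS.eqOn {a : ℕ → ℂ} {f g : ℂ → ℂ} (hf : IsPS a f) (hg : IsPS a g) :
    ∀ z ∈ Metric.ball (0 : ℂ) 1, f z = g z := fun z hz => (hf z hz).unique (hg z hz)

lemma IsPS.add {a b : ℕ → ℂ} {f g : ℂ → ℂ} (hf : IsPS a f) (hg : IsPS b g) :
    IsPS (fun n => a n + b n) (fun z => f z + g z) := by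
  intro z hz
  have := (hf z hz).add (hg z hz)
  refine this.congr_fun fun n => ?_
  ring

lemma IsPS.smul {a : ℕ → ℂ} {f : ℂ → ℂ} (hf : IsPS a f) (c : ℂ) :
    IsPS (fun n => c * a n) (fun z => c * f z) := by
  intro z hz
  have := (hf z hz).mul_left c
  refine this.congr_fun fun n => ?_
  ring

/-- squared norm of an `L²` function -/
lemma normSq_eq {g : ℂ → ℂ} (hg : MemLp g 2 μD) :
    normSq g = ENNReal.ofReal (Real.pi⁻¹ * ∫ z, ‖g z‖ ^ 2 ∂μD) := by
  have hint : Integrable (fun z => ‖g z‖ ^ 2) μD := hg.norm.integrable_sq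
  unfold normSq dA
  rw [lintegral_smul_measure, ENNReal.ofReal_mul (by positivity), ENNReal.ofReal_inv_of_pos Real.pi_pos,
    smul_eq_mul, ofReal_integral_eq_lintegral_ofReal hint (ae_of_all _ fun z => by positivity)]
  congr 1
  apply lintegral_congr
  intro z
  rw [ENNReal.ofReal_pow (norm_nonneg _), ofReal_norm]

lemma memLp_of_memBergman {f : ℂ → ℂ} (hf : MemBergman f) : MemLp f 2 μD := by
  have hm : AEStronglyMeasurable f μD :=
    hf.1.continuousOn.aestronglyMeasurable measurableSet_ball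
  refine ⟨hm, ?_⟩
  rw [eLpNorm_lt_top_iff_lintegral_rpow_enorm_lt_top (by norm_num) (by norm_num)]
  have h1 := hf.2
  unfold normSq dA at h1
  rw [lintegral_smul_measure, smul_eq_mul] at h1
  by_contra hne
  rw [not_lt, top_le_iff] at hne
  have h2 : ∫⁻ z, ‖f z‖ₑ ^ 2 ∂μD = ⊤ := by
    rw [← hne]
    apply lintegral_congr
    intro z
    simp
  rw [h2, ENNReal.mul_top] at h1
  · exact lt_irrefl _ h1
  · rw [Ne, ENNReal.inv_eq_zero]
    exact ENNReal.ofReal_ne_top

/-- every Bergman function comes from the model -/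
lemma exists_model {f : ℂ → ℂ} (hf : MemBergman f) : ∃ α : L2, IsPS (coef α) f := by
  obtain ⟨a, ha⟩ := exists_isPS hf.1
  have h1 := ha.summable_of_integrable ((memLp_two_iff_integrable_sq_norm ha.aesm).1
    (memLp_of_memBergman hf))
  have hs : ∀ n : ℕ, 0 < Real.sqrt ((n : ℝ) + 1) := fun n => Real.sqrt_pos.2 (by positivity)
  have h2 : Summable fun n => ‖a n / (Real.sqrt ((n : ℝ) + 1) : ℂ)‖ ^ 2 := by
    refine h1.congr fun n => ?_
    rw [norm_div, div_pow, Complex.norm_real, Real.norm_of_nonneg (hs n).le,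
      Real.sq_sqrt (by positivity)]
  refine ⟨mk2 _ h2, ?_⟩
  have h3 : coef (mk2 _ h2) = a := by
    funext n
    unfold coef
    rw [mk2_apply, div_mul_cancel₀]
    exact Complex.ofReal_ne_zero.2 (hs n).ne'
  rw [h3]
  exact ha

lemma memLp_of_isPS {α : L2} {f : ℂ → ℂ} (h : IsPS (coef α) f) : MemLp f 2 μD := by
  apply memLp_of h.aesm
  apply h.integrable_of_summable
  refine (summable_sq α).congr fun n => ?_
  rw [norm_coef_sq]
  field_simp

lemma integral_sq {α : L2} {f : ℂ → ℂ} (h : IsPS (coef α) f) :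
    ∫ z, ‖f z‖ ^ 2 ∂μD = Real.pi * ‖α‖ ^ 2 := by
  have h1 := h.parseval_norm (memLp_of_isPS h)
  have h2 := (norm_sq_eq α).mul_left Real.pi
  have h3 : (fun n => ‖coef α n‖ ^ 2 * (Real.pi / ((n : ℝ) + 1))) = fun n => Real.pi * ‖α n‖ ^ 2 := by
    funext n
    rw [norm_coef_sq]
    field_simp
  rw [h3] at h1
  exact h1.unique h2

lemma normSq_model {α : L2} {f : ℂ → ℂ} (h : IsPS (coef α) f) :
    normSq f = ENNReal.ofReal (‖α‖ ^ 2) := by
  rw [normSq_eq (memLp_of_isPS h), integral_sq h]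
  congr 1
  have := Real.pi_pos
  field_simp

lemma memBergman_of_isPS {α : L2} {f : ℂ → ℂ} (h : IsPS (coef α) f) : MemBergman f := by
  refine ⟨h.differentiableOn, ?_⟩
  rw [normSq_model h]
  exact ENNReal.ofReal_lt_top

lemma coef_add (α β : L2) : coef (α + β) = fun n => coef α n + coef β n := by
  funext n
  simp only [coef, lp.coeFn_add, Pi.add_apply]
  ring

lemma coef_smul (c : ℂ) (α : L2) : coef (c • α) = fun n => c * coef α n := by
  funext n
  simp only [coef, lp.coeFn_smul, Pi.smul_apply, smul_eq_mul]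
  ring

lemma coef_sub (α β : L2) : coef (α - β) = fun n => coef α n + (-1) * coef β n := by
  funext n
  simp only [coef, lp.coeFn_sub, Pi.sub_apply]
  ring

lemma isPS_sub {α β : L2} {f g : ℂ → ℂ} (hf : IsPS (coef α) f) (hg : IsPS (coef β) g) :
    IsPS (coef (α - β)) (fun z => f z - g z) := by
  rw [coef_sub]
  have h1 := hf.add (hg.smul (-1))
  refine h1.congr fun z _ => ?_
  ring

/-! ### multiplication by `z` -/

/-- coefficients of the shifted element -/
noncomputable def Tc (α : L2) : ℕ → ℂ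
  | 0 => 0
  | n + 1 => α n * (Real.sqrt (((n : ℝ) + 1) / ((n : ℝ) + 2)) : ℂ)

lemma summable_Tc (α : L2) : Summable fun n => ‖Tc α n‖ ^ 2 := by
  rw [← summable_nat_add_iff 1]
  refine Summable.of_nonneg_of_le (fun n => by positivity) (fun n => ?_) (summable_sq α)
  change ‖α n * (Real.sqrt (((n : ℝ) + 1) / ((n : ℝ) + 2)) : ℂ)‖ ^ 2 ≤ ‖α n‖ ^ 2
  rw [norm_mul, mul_pow, Complex.norm_real, Real.norm_of_nonneg (Real.sqrt_nonneg _),
    Real.sq_sqrt (by positivity)]
  have h1 : ((n : ℝ) + 1) / ((n : ℝ) + 2) ≤ 1 := by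
    rw [div_le_one (by positivity)]; linarith
  nlinarith [sq_nonneg ‖α n‖]

/-- the Bergman shift -/
noncomputable def T (α : L2) : L2 := mk2 (Tc α) (summable_Tc α)

lemma isPS_T {α : L2} {f : ℂ → ℂ} (h : IsPS (coef α) f) : IsPS (coef (T α)) (fun z => z * f z) := by
  intro z hz
  rw [← hasSum_nat_add_iff' 1]
  have h1 : ∑ i ∈ Finset.range 1, coef (T α) i * z ^ i = 0 := by
    simp [coef, T, mk2_apply, Tc]
  rw [h1, sub_zero]
  have h2 := (h z hz).mul_left z
  refine h2.congr_fun fun n => ?_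
  change coef (T α) (n + 1) * z ^ (n + 1) = z * (coef α n * z ^ n)
  have h3 : coef (T α) (n + 1) = coef α n := by
    unfold coef T
    rw [mk2_apply]
    change α n * (Real.sqrt (((n : ℝ) + 1) / ((n : ℝ) + 2)) : ℂ) *
      (Real.sqrt (((n + 1 : ℕ) : ℝ) + 1) : ℂ) = _
    rw [mul_assoc, ← Complex.ofReal_mul]
    congr 2
    rw [← Real.sqrt_mul (by positivity)]
    congr 1
    push_cast
    field_simp
    ring
  rw [h3, pow_succ]
  ring

/-! ### invariant subspaces from the model -/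

/-- the functions belonging to a subspace of the model -/
def Fn (V : Submodule ℂ L2) : Set (ℂ → ℂ) := {f | ∃ α ∈ V, IsPS (coef α) f}

lemma coef_inj {α β : L2} (h : coef α = coef β) : α = β := by
  apply lp.ext
  funext n
  have h1 := congrFun h n
  unfold coef at h1
  have hs : ((Real.sqrt ((n : ℝ) + 1) : ℝ) : ℂ) ≠ 0 :=
    Complex.ofReal_ne_zero.2 (Real.sqrt_pos.2 (by positivity : (0 : ℝ) < (n : ℝ) + 1)).ne'
  exact mul_right_cancel₀ hs h1

theorem isInv_Fn (V : Submodule ℂ L2) (hV : IsClosed (V : Set L2)) (hT : ∀ α ∈ V, T α ∈ V) :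
    IsInvSubspace (Fn V) where
  bergman := by
    rintro f ⟨α, _, h⟩
    exact memBergman_of_isPS h
  ext := by
    rintro f ⟨α, hα, h⟩ g hg
    exact ⟨α, hα, h.congr hg⟩
  zero := by
    refine ⟨0, V.zero_mem, ?_⟩
    intro z _
    have : (fun n => coef (0 : L2) n * z ^ n) = fun _ => 0 := by
      funext n
      simp [coef]
    rw [this]
    exact hasSum_zero
  add := by
    rintro f ⟨α, hα, h⟩ g ⟨β, hβ, h'⟩
    refine ⟨α + β, V.add_mem hα hβ, ?_⟩
    rw [coef_add]
    exact h.add h'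
  smul := by
    rintro c f ⟨α, hα, h⟩
    refine ⟨c • α, V.smul_mem c hα, ?_⟩
    rw [coef_smul]
    exact h.smul c
  closed := by
    intro F f hF hf hlim
    choose α hα hαF using hF
    obtain ⟨β, hβ⟩ := exists_model hf
    refine ⟨β, ?_, hβ⟩
    have h1 : ∀ n, normSq (fun z => F n z - f z) = ENNReal.ofReal (‖α n - β‖ ^ 2) := fun n =>
      normSq_model (isPS_sub (hαF n) hβ)
    simp only [h1] at hlim
    have h2 : Tendsto (fun n => ‖α n - β‖ ^ 2) atTop (𝓝 0) := by
      have h3 := (ENNReal.tendsto_toReal ENNReal.zero_ne_top).comp hlim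
      have h4 : (ENNReal.toReal ∘ fun n => ENNReal.ofReal (‖α n - β‖ ^ 2)) =
          fun n => ‖α n - β‖ ^ 2 := by
        funext n
        simp only [Function.comp_apply]
        rw [ENNReal.toReal_ofReal (by positivity)]
      rw [h4] at h3
      simpa using h3
    have h5 : Tendsto (fun n => ‖α n - β‖) atTop (𝓝 0) := by
      have h6 := h2.sqrt
      simp only [Real.sqrt_zero, Real.sqrt_sq (norm_nonneg _)] at h6
      exact h6
    have h7 : Tendsto α atTop (𝓝 β) := tendsto_iff_norm_sub_tendsto_zero.2 h5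
    exact hV.mem_of_tendsto h7 (Eventually.of_forall hα)
  z_mul := by
    rintro f ⟨α, hα, h⟩
    exact ⟨T α, hT α hα, isPS_T h⟩

/-- extremal functions from the model -/
theorem isExtremal_Fn (V : Submodule ℂ L2) {G : L2} (hG : G ∈ V) (hG1 : ‖G‖ = 1) {ρ : ℝ}
    (hρ : 0 < ρ) (he : ∀ α ∈ V, α 0 = (ρ : ℂ) * inner ℂ G α) : IsExtremal (Fn V) (fn G) := by
  have hG0 : fn G 0 = (ρ : ℂ) := by
    rw [(isPS_fn G).at_zero, coef_zero, he G hG, inner_self_eq_norm_sq_to_K, hG1]
    simp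
  have hval : ∀ α ∈ V, ∀ f : ℂ → ℂ, IsPS (coef α) f → (f 0).re = ρ * (inner ℂ G α).re := by
    intro α hα f hf
    rw [hf.at_zero, coef_zero, he α hα, Complex.re_ofReal_mul]
  have hnorm : ∀ (α : L2) (f : ℂ → ℂ), IsPS (coef α) f → normSq f ≤ 1 → ‖α‖ ≤ 1 := by
    intro α f hf h1
    rw [normSq_model hf] at h1
    have h2 : ‖α‖ ^ 2 ≤ 1 := by
      have h3 := ENNReal.toReal_mono ENNReal.one_ne_top h1
      rwa [ENNReal.toReal_ofReal (by positivity), ENNReal.toReal_one] at h3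
    nlinarith [norm_nonneg α]
  have hle : ∀ α : L2, ‖α‖ ≤ 1 → (inner ℂ G α).re ≤ 1 := by
    intro α hα
    have h1 : (inner ℂ G α).re ≤ ‖inner ℂ G α‖ := Complex.re_le_norm _
    have h2 : ‖inner ℂ G α‖ ≤ ‖G‖ * ‖α‖ := norm_inner_le_norm G α
    rw [hG1, one_mul] at h2
    linarith
  refine ⟨⟨G, hG, isPS_fn G⟩, ?_, ?_, ?_⟩
  · rw [normSq_model (isPS_fn G), hG1]
    simp
  · rintro f ⟨α, hα, hf⟩ h1
    rw [hval α hα f hf, hG0, Complex.ofReal_re]
    have := hle α (hnorm α f hf h1)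
    nlinarith
  · rintro f ⟨α, hα, hf⟩ h1 h2
    rw [hval α hα f hf, hG0, Complex.ofReal_re] at h2
    have hα1 := hnorm α f hf h1
    have h3 : 1 ≤ (inner ℂ G α).re := by
      by_contra h
      push Not at h
      nlinarith
    have h4 : ‖G - α‖ ^ 2 ≤ 0 := by
      have h5 := @norm_sub_sq ℂ L2 _ _ _ G α
      rw [h5, hG1]
      have h6 : RCLike.re (inner ℂ G α) = (inner ℂ G α).re := rfl
      rw [h6]
      nlinarith [norm_nonneg α]
    have h7 : G = α := by
      have h8 : ‖G - α‖ = 0 := by nlinarith [norm_nonneg (G - α)]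
      exact sub_eq_zero.1 (norm_eq_zero.1 h8)
    subst h7
    exact hf.eqOn (isPS_fn G)

end Pool.Agent.H563Dom
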