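import Mathlib

set_option autoImplicit false

/-!
Three real square summable sequences `x 0, x 1, y` with
`∑ m, x i m * y (m+k) * w m k = δ_{i,1} δ_{k,0}`, `x 0 0 = 1`, `x 1 0 = 0`, where
`w m k = sqrt ((m+1)/(m+k+1))`.
-/

namespace Pool.Agent.H563Dom

open Finset Filter Topology

/-- the weights -/
noncomputable def w (m k : ℕ) : ℝ := Real.sqrt (((m : ℝ) + 1) / ((m : ℝ) + k + 1))

lemma w_pos (m k : ℕ) : 0 < w m k := Real.sqrt_pos.2 (by positivity)

lemma w_le_one (m k : ℕ) : w m k ≤ 1 := by
  apply Real.sqrt_le_one.2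
  rw [div_le_one (by positivity)]
  have : (0 : ℝ) ≤ k := Nat.cast_nonneg k
  linarith

/-- the target -/
def tgt (i : Fin 2) (k : ℕ) : ℝ := if i = 1 ∧ k = 0 then 1 else 0

/-- a state: sequences supported in `[0, N)` -/
structure St where
  N : ℕ
  x : Fin 2 → ℕ → ℝ
  y : ℕ → ℝ
  hx : ∀ i m, N ≤ m → x i m = 0
  hy : ∀ m, N ≤ m → y m = 0

/-- the error -/
noncomputable def err (s : St) (i : Fin 2) (k : ℕ) : ℝ :=
  ∑ m ∈ range s.N, s.x i m * s.y (m + k) * w m k - tgt i k

/-- total error -/
noncomputable def tot (s : St) : ℝ := ∑ i, ∑ k ∈ range s.N, |err s i k|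

/-- step relation -/
def Step (δ : ℝ) (s s' : St) : Prop :=
  s.N < s'.N ∧ (∀ i m, m < s.N → s'.x i m = s.x i m) ∧ (∀ m, m < s.N → s'.y m = s.y m) ∧
  ∃ c : ℝ, 0 ≤ c ∧ (∀ i k, |err s i k| ≤ c) ∧ tot s' ≤ tot s - c + δ ∧
    (∀ i, ∑ m ∈ range s'.N, s'.x i m ^ 2 ≤ ∑ m ∈ range s.N, s.x i m ^ 2 + c) ∧
    ∑ m ∈ range s'.N, s'.y m ^ 2 ≤ ∑ m ∈ range s.N, s.y m ^ 2 + 2 * c

lemma err_zero (s : St) (hN : 1 ≤ s.N) (i : Fin 2) (k : ℕ) (hk : s.N ≤ k) : err s i k = 0 := by
  unfold err
  have h1 : ∑ m ∈ range s.N, s.x i m * s.y (m + k) * w m k = 0 := by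
    apply sum_eq_zero
    intro m _
    rw [s.hy (m + k) (by omega)]
    ring
  have h2 : tgt i k = 0 := by
    unfold tgt
    rw [if_neg]
    omega
  rw [h1, h2, sub_zero]

/-- maximal error term -/
lemma exists_max (s : St) (hN : 1 ≤ s.N) : ∃ i0 k0, ∀ i k, |err s i k| ≤ |err s i0 k0| := by
  have hne : ((univ : Finset (Fin 2)) ×ˢ range s.N).Nonempty := by
    refine ⟨(0, 0), ?_⟩
    simp only [mem_product, mem_univ, mem_range, true_and]
    omega
  obtain ⟨p, _, hp⟩ := exists_max_image _ (fun p : Fin 2 × ℕ => |err s p.1 p.2|) hne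
  refine ⟨p.1, p.2, ?_⟩
  intro i k
  by_cases hk : k < s.N
  · exact hp (i, k) (by simp only [mem_product, mem_univ, mem_range, true_and]; exact hk)
  · rw [err_zero s hN i k (by omega), abs_zero]
    exact abs_nonneg _

/-- the modified state -/
noncomputable def upd (s : St) (i0 : Fin 2) (n q : ℕ) (hn : s.N ≤ n) (hq : n ≤ q) (a b : ℝ) : St where
  N := q + 1
  x := fun i m => s.x i m + if i = i0 ∧ m = n then a else 0
  y := fun m => s.y m + if m = q then b else 0
  hx := by
    intro i m hm
    rw [s.hx i m (by omega), if_neg (by omega), add_zero]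
  hy := by
    intro m hm
    rw [s.hy m (by omega), if_neg (by omega), add_zero]

lemma err_upd (s : St) (i0 : Fin 2) (n k0 : ℕ) (hn : s.N ≤ n) (a b : ℝ) (i : Fin 2) (k : ℕ) :
    err (upd s i0 n (n + k0) hn (Nat.le_add_right _ _) a b) i k =
      err s i k + (if i = i0 ∧ k = k0 then a * b * w n k0 else 0) +
      (if k ≤ n + k0 ∧ n + k0 - k < s.N then s.x i (n + k0 - k) * b * w (n + k0 - k) k else 0) := by
  have hsum : ∑ m ∈ range (n + k0 + 1), (s.x i m + if i = i0 ∧ m = n then a else 0) *
      (s.y (m + k) + if m + k = n + k0 then b else 0) * w m k =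
      ∑ m ∈ range s.N, s.x i m * s.y (m + k) * w m k +
      (if i = i0 ∧ k = k0 then a * b * w n k0 else 0) +
      (if k ≤ n + k0 ∧ n + k0 - k < s.N then s.x i (n + k0 - k) * b * w (n + k0 - k) k else 0) := by
    have h1 : ∀ m, (s.x i m + if i = i0 ∧ m = n then a else 0) *
      (s.y (m + k) + if m + k = n + k0 then b else 0) * w m k =
      s.x i m * s.y (m + k) * w m k + (if m = n then (if i = i0 ∧ k = k0 then a * b * w n k0 else 0)
        else 0) + (if m + k = n + k0 then s.x i m * b * w m k else 0) := by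
      intro m
      by_cases hm : m = n
      · subst hm
        rw [s.hx i m hn, s.hy (m + k) (by omega)]
        by_cases hi : i = i0
        · by_cases hk : k = k0
          · subst hk; simp [hi]
          · have h2 : ¬ (m + k = m + k0) := by omega
            simp [hi, hk]
        · simp [hi]
      · have h2 : ¬ (i = i0 ∧ m = n) := fun h => hm h.2
        rw [if_neg h2, if_neg hm]
        by_cases h3 : m + k = n + k0
        · rw [if_pos h3, if_pos h3]; ring
        · rw [if_neg h3, if_neg h3]; ring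
    simp only [h1]
    rw [sum_add_distrib, sum_add_distrib]
    congr 1
    · congr 1
      · rw [← sum_range_add_sum_Ico _ (show s.N ≤ n + k0 + 1 by omega)]
        rw [add_eq_left]
        apply sum_eq_zero
        intro m hm
        rw [mem_Ico] at hm
        rw [s.hx i m hm.1]
        ring
      · rw [sum_ite_eq' (range (n + k0 + 1)) n]
        rw [if_pos]
        rw [mem_range]; omega
    · by_cases hk : k ≤ n + k0
      · have h2 : ∀ m, (if m + k = n + k0 then s.x i m * b * w m k else 0) =
            if m = n + k0 - k then s.x i m * b * w m k else 0 := by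
          intro m
          by_cases h : m + k = n + k0
          · rw [if_pos h, if_pos (by omega)]
          · rw [if_neg h, if_neg (by omega)]
        simp only [h2]
        rw [sum_ite_eq' (range (n + k0 + 1)) (n + k0 - k), if_pos (by rw [mem_range]; omega)]
        by_cases h3 : n + k0 - k < s.N
        · rw [if_pos ⟨hk, h3⟩]
        · rw [if_neg (fun h => h3 h.2), s.hx i _ (by omega)]
          ring
      · rw [if_neg (fun h => hk h.1)]
        apply sum_eq_zero
        intro m _
        rw [if_neg (by omega)]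
  unfold err
  have h0 : (upd s i0 n (n + k0) hn (Nat.le_add_right _ _) a b).N = n + k0 + 1 := rfl
  have h1 : ∀ m, (upd s i0 n (n + k0) hn (Nat.le_add_right _ _) a b).x i m =
    s.x i m + if i = i0 ∧ m = n then a else 0 := fun m => rfl
  have h2 : ∀ m, (upd s i0 n (n + k0) hn (Nat.le_add_right _ _) a b).y m =
    s.y m + if m = n + k0 then b else 0 := fun m => rfl
  rw [h0]
  simp only [h1, h2]
  rw [hsum]
  ring

lemma sum_sq_upd (f : ℕ → ℝ) (N M n : ℕ) (hf : ∀ m, N ≤ m → f m = 0) (hn : N ≤ n) (hM : n < M)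
    (a : ℝ) : ∑ m ∈ range M, (f m + if m = n then a else 0) ^ 2 =
      ∑ m ∈ range N, f m ^ 2 + a ^ 2 := by
  have h1 : ∀ m, (f m + if m = n then a else 0) ^ 2 = f m ^ 2 + if m = n then a ^ 2 else 0 := by
    intro m
    by_cases hm : m = n
    · subst hm
      rw [hf m hn]; simp
    · simp [hm]
  simp only [h1]
  rw [sum_add_distrib, sum_ite_eq' (range M) n, if_pos (by rw [mem_range]; omega)]
  congr 1
  rw [← sum_range_add_sum_Ico _ (show N ≤ M by omega), add_eq_left]
  apply sum_eq_zero
  intro m hm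
  rw [mem_Ico] at hm
  rw [hf m hm.1]; ring

lemma exists_step (s : St) (hN : 1 ≤ s.N) {δ : ℝ} (hδ : 0 < δ) : ∃ s', Step δ s s' := by
  obtain ⟨i0, k0, hmax⟩ := exists_max s hN
  set e := err s i0 k0 with he
  set c := |e| with hc
  have hc0 : 0 ≤ c := abs_nonneg _
  set X : ℝ := ∑ i, ∑ m ∈ range s.N, |s.x i m| with hX
  have hX0 : 0 ≤ X := sum_nonneg fun i _ => sum_nonneg fun m _ => abs_nonneg _
  -- choice of n
  have hlim : Tendsto (fun n : ℕ => X * Real.sqrt (2 * c) * Real.sqrt ((s.N : ℝ) / ((n : ℝ) + 1)))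
      atTop (𝓝 0) := by
    have h1 : Tendsto (fun n : ℕ => (s.N : ℝ) / ((n : ℝ) + 1)) atTop (𝓝 0) :=
      tendsto_const_nhds.div_atTop
        (tendsto_atTop_add_const_right _ _ tendsto_natCast_atTop_atTop)
    have h2 := h1.sqrt.const_mul (X * Real.sqrt (2 * c))
    simpa using h2
  have hev := ((tendsto_order.1 hlim).2 δ hδ).and (eventually_ge_atTop (max s.N k0))
  obtain ⟨n, hnδ, hn⟩ := hev.exists
  have hnN : s.N ≤ n := (le_max_left _ _).trans hn
  have hnk : k0 ≤ n := (le_max_right _ _).trans hn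
  have hw := w_pos n k0
  have hw2 : 1 / 2 ≤ w n k0 ^ 2 := by
    unfold w
    rw [Real.sq_sqrt (by positivity), div_le_div_iff₀ (by norm_num) (by positivity)]
    have : (k0 : ℝ) ≤ n := by exact_mod_cast hnk
    linarith
  set a := Real.sqrt c with ha
  set b := -e / (Real.sqrt c * w n k0) with hb
  have haa : a ^ 2 = c := Real.sq_sqrt hc0
  have hab : a * b * w n k0 = -e := by
    rcases hc0.eq_or_lt with h | h
    · have he0 : e = 0 := abs_eq_zero.1 h.symm
      rw [hb, he0]; simp
    · have hs : 0 < Real.sqrt c := Real.sqrt_pos.2 h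
      rw [ha, hb]
      field_simp
  have hbb : b ^ 2 ≤ 2 * c := by
    rcases hc0.eq_or_lt with h | h
    · have he0 : e = 0 := abs_eq_zero.1 h.symm
      rw [hb, he0]; simp; exact hc0
    · have hee : e ^ 2 = c ^ 2 := (sq_abs e).symm
      rw [hb, div_pow, mul_pow, Real.sq_sqrt hc0, neg_sq, hee, div_le_iff₀ (by positivity)]
      nlinarith [mul_pos h h]
  have hbabs : |b| ≤ Real.sqrt (2 * c) := Real.abs_le_sqrt hbb
  refine ⟨upd s i0 n (n + k0) hnN (Nat.le_add_right _ _) a b, ?_, ?_, ?_, c, hc0, hmax, ?_, ?_, ?_⟩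
  · change s.N < n + k0 + 1
    omega
  · intro i m hm
    change s.x i m + (if i = i0 ∧ m = n then a else 0) = s.x i m
    rw [if_neg (by omega), add_zero]
  · intro m hm
    change s.y m + (if m = n + k0 then b else 0) = s.y m
    rw [if_neg (by omega), add_zero]
  · -- total error
    set s' := upd s i0 n (n + k0) hnN (Nat.le_add_right _ _) a b with hs'
    have hN' : s'.N = n + k0 + 1 := rfl
    set φ : Fin 2 → ℕ → ℝ := fun i m =>
      if m < s.N then |s.x i m| * |b| * Real.sqrt ((s.N : ℝ) / ((n : ℝ) + 1)) else 0 with hφ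
    have hbd : ∀ i, ∀ k ∈ range (n + k0 + 1), |err s' i k| ≤
        (|err s i k| - if i = i0 ∧ k = k0 then c else 0) + φ i (n + k0 + 1 - 1 - k) := by
      intro i k hk
      rw [mem_range] at hk
      rw [hs', err_upd]
      have h1 : |err s i k + (if i = i0 ∧ k = k0 then a * b * w n k0 else 0)| ≤
          |err s i k| - if i = i0 ∧ k = k0 then c else 0 := by
        by_cases h : i = i0 ∧ k = k0
        · rw [if_pos h, if_pos h, h.1, h.2, hab]
          simp [← he, ← hc]
        · rw [if_neg h, if_neg h, add_zero, sub_zero]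
      have h2 : |(if k ≤ n + k0 ∧ n + k0 - k < s.N then
          s.x i (n + k0 - k) * b * w (n + k0 - k) k else 0)| ≤ φ i (n + k0 + 1 - 1 - k) := by
        rw [hφ]
        simp only [Nat.add_sub_cancel]
        by_cases h : n + k0 - k < s.N
        · rw [if_pos ⟨by omega, h⟩, if_pos h, abs_mul, abs_mul, abs_of_pos (w_pos _ _)]
          apply mul_le_mul_of_nonneg_left _ (by positivity)
          unfold w
          apply Real.sqrt_le_sqrt
          have e1 : ((n + k0 - k : ℕ) : ℝ) + 1 ≤ s.N := by exact_mod_cast h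
          have e2 : ((n + k0 - k : ℕ) : ℝ) + k + 1 = (n : ℝ) + k0 + 1 := by
            have : (n + k0 - k) + k + 1 = n + k0 + 1 := by omega
            exact_mod_cast this
          rw [e2]
          have e3 : (0 : ℝ) ≤ k0 := Nat.cast_nonneg k0
          apply div_le_div₀ (Nat.cast_nonneg _) e1 (by positivity) (by linarith)
        · rw [if_neg (fun h' => h h'.2), if_neg h, abs_zero]
      exact (abs_add_le _ _).trans (add_le_add h1 h2)
    have hφs : ∀ i, ∑ k ∈ range (n + k0 + 1), φ i (n + k0 + 1 - 1 - k) =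
        ∑ m ∈ range s.N, |s.x i m| * |b| * Real.sqrt ((s.N : ℝ) / ((n : ℝ) + 1)) := by
      intro i
      rw [sum_range_reflect (φ i) (n + k0 + 1)]
      rw [← sum_range_add_sum_Ico _ (show s.N ≤ n + k0 + 1 by omega)]
      have h2 : ∑ k ∈ Ico s.N (n + k0 + 1), φ i k = 0 := by
        apply sum_eq_zero
        intro m hm
        rw [mem_Ico] at hm
        rw [hφ]
        simp only
        rw [if_neg (by omega)]
      rw [h2, add_zero]
      apply sum_congr rfl
      intro m hm
      rw [mem_range] at hm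
      rw [hφ]
      simp only
      rw [if_pos hm]
    have herrs : ∀ i, ∑ k ∈ range (n + k0 + 1), |err s i k| = ∑ k ∈ range s.N, |err s i k| := by
      intro i
      rw [← sum_range_add_sum_Ico _ (show s.N ≤ n + k0 + 1 by omega), add_eq_left]
      apply sum_eq_zero
      intro k hk
      rw [mem_Ico] at hk
      rw [err_zero s hN i k hk.1, abs_zero]
    have hcs : ∑ i : Fin 2, ∑ k ∈ range (n + k0 + 1), (if i = i0 ∧ k = k0 then c else 0) = c := by
      have h1 : ∀ i : Fin 2, ∑ k ∈ range (n + k0 + 1), (if i = i0 ∧ k = k0 then c else 0) =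
          if i = i0 then c else 0 := by
        intro i
        by_cases hi : i = i0
        · simp only [hi, true_and, if_true]
          rw [sum_ite_eq' (range (n + k0 + 1)) k0, if_pos (by rw [mem_range]; omega)]
        · simp [hi]
      simp only [h1]
      rw [sum_ite_eq' univ i0, if_pos (mem_univ _)]
    calc tot s' = ∑ i, ∑ k ∈ range (n + k0 + 1), |err s' i k| := rfl
      _ ≤ ∑ i, ∑ k ∈ range (n + k0 + 1), ((|err s i k| - if i = i0 ∧ k = k0 then c else 0) +
            φ i (n + k0 + 1 - 1 - k)) := sum_le_sum fun i _ => sum_le_sum (hbd i)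
      _ = tot s - c + X * |b| * Real.sqrt ((s.N : ℝ) / ((n : ℝ) + 1)) := by
        simp only [sum_add_distrib, sum_sub_distrib, hφs, herrs]
        rw [hcs]
        congr 1
        rw [hX, sum_mul, sum_mul]
        apply sum_congr rfl
        intro i _
        rw [sum_mul, sum_mul]
      _ ≤ tot s - c + δ := by
        have h1 : X * |b| * Real.sqrt ((s.N : ℝ) / ((n : ℝ) + 1)) ≤
            X * Real.sqrt (2 * c) * Real.sqrt ((s.N : ℝ) / ((n : ℝ) + 1)) := by
          gcongr
        linarith
  · intro i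
    change ∑ m ∈ range (n + k0 + 1), (s.x i m + if i = i0 ∧ m = n then a else 0) ^ 2 ≤ _
    by_cases hi : i = i0
    · simp only [hi, true_and]
      rw [sum_sq_upd (s.x i0) s.N (n + k0 + 1) n (s.hx i0) hnN (by omega) a, haa]
    · simp only [hi, false_and, if_false, add_zero]
      rw [← sum_range_add_sum_Ico _ (show s.N ≤ n + k0 + 1 by omega)]
      have h2 : ∑ m ∈ Ico s.N (n + k0 + 1), s.x i m ^ 2 = 0 := by
        apply sum_eq_zero
        intro m hm
        rw [mem_Ico] at hm
        rw [s.hx i m hm.1]; ring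
      rw [h2]
      linarith
  · change ∑ m ∈ range (n + k0 + 1), (s.y m + if m = n + k0 then b else 0) ^ 2 ≤ _
    rw [sum_sq_upd s.y s.N (n + k0 + 1) (n + k0) s.hy (by omega) (by omega) b]
    linarith

end Pool.Agent.H563Dom
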